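import Mathlib

/-! Parity codes of the `3x+d` map and the number of the visits to a box. -/

set_option autoImplicit false

namespace Pool.Agent.H33.NC

open Finset

/-- The `3x+d` map on the integers. -/
def T (d x : ℤ) : ℤ := if x % 2 = 0 then x / 2 else (3 * x + d) / 2

theorem T_even {d x : ℤ} (h : x % 2 = 0) : 2 * T d x = x := by
  unfold T; rw [if_pos h]; omega

theorem T_odd {d x : ℤ} (hd : d % 2 = 1) (h : x % 2 = 1) : 2 * T d x = 3 * x + d := by
  unfold T; rw [if_neg (by omega)]; omega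

/-- the code of the first `n` parities -/
def code (d : ℤ) : ℕ → ℤ → ℕ
  | 0, _ => 0
  | n + 1, x => (x % 2).toNat + 2 * code d n (T d x)

/-- the number of the odd elements among the first `n` -/
def odds (d : ℤ) : ℕ → ℤ → ℕ
  | 0, _ => 0
  | n + 1, x => (x % 2).toNat + odds d n (T d x)

theorem code_lt (d : ℤ) : ∀ (n : ℕ) (x : ℤ), code d n x < 2 ^ n
  | 0, _ => by simp [code]
  | n + 1, x => by
      have h := code_lt d n (T d x)
      simp only [code]
      rw [pow_succ]
      have : (x % 2).toNat ≤ 1 := by omega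
      omega

theorem code_diff {d : ℤ} (hd : d % 2 = 1) : ∀ (n : ℕ) (x y : ℤ), code d n x = code d n y →
    odds d n x = odds d n y ∧
      2 ^ n * ((T d)^[n] x - (T d)^[n] y) = 3 ^ (odds d n x) * (x - y)
  | 0, x, y, _ => by simp [odds]
  | n + 1, x, y, h => by
      simp only [code] at h
      have hp : x % 2 = y % 2 := by omega
      have hc : code d n (T d x) = code d n (T d y) := by omega
      obtain ⟨h1, h2⟩ := code_diff hd n (T d x) (T d y) hc
      simp only [odds, Function.iterate_succ_apply]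
      refine ⟨by omega, ?_⟩
      rcases Int.emod_two_eq_zero_or_one x with hx | hx
      · have ex := T_even (d := d) hx
        have ey := T_even (d := d) (hp ▸ hx : y % 2 = 0)
        rw [hx]
        simp only [Int.toNat_zero, zero_add]
        rw [pow_succ]
        linear_combination 2 * h2 + 3 ^ (odds d n (T d x)) * (ex - ey)
      · have ex := T_odd hd hx
        have ey := T_odd hd (hp ▸ hx : y % 2 = 1)
        rw [hx]
        simp only [Int.toNat_one]
        rw [pow_succ, pow_add, pow_one]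
        linear_combination 2 * h2 + 3 ^ (odds d n (T d x)) * (ex - ey)

theorem dvd_of_code {d : ℤ} (hd : d % 2 = 1) {n : ℕ} {x y : ℤ} (h : code d n x = code d n y) :
    (2 : ℤ) ^ n ∣ x - y := by
  obtain ⟨-, h2⟩ := code_diff hd n x y h
  have h3 : (2 : ℤ) ^ n ∣ 3 ^ (odds d n x) * (x - y) := ⟨_, h2.symm⟩
  refine IsCoprime.dvd_of_dvd_mul_left ?_ h3
  exact IsCoprime.pow (by norm_num)

theorem eq_of_code {d : ℤ} (hd : d % 2 = 1) {n : ℕ} {x y : ℤ} (hn : 1 ≤ n)
    (h : code d n x = code d n y) (hx : (T d)^[n] x = x) (hy : (T d)^[n] y = y) : x = y := by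
  obtain ⟨-, h2⟩ := code_diff hd n x y h
  rw [hx, hy] at h2
  by_contra hne
  have h3 : ((2 : ℤ) ^ n - 3 ^ (odds d n x)) * (x - y) = 0 := by linear_combination h2
  rcases mul_eq_zero.1 h3 with h4 | h4
  · have h5 : (2 : ℤ) ^ n % 2 = 0 := by
      obtain ⟨m, rfl⟩ : ∃ m, n = m + 1 := ⟨n - 1, by omega⟩
      rw [pow_succ]; omega
    have h6 : (3 : ℤ) ^ (odds d n x) % 2 = 1 := by
      rw [← Int.odd_iff]
      exact Odd.pow (by decide)
    omega
  · exact hne (by omega)

/-- the step of the majorant -/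
noncomputable def st (b : ℕ) (M : ℝ) : ℝ := if b % 2 = 0 then M / 2 else (3 * M + 1) / 2

open Classical in
/-- the visits of the majorant to `[0, 100]` -/
noncomputable def vis : ℕ → ℕ → ℝ → ℕ
  | 0, _, _ => 0
  | n + 1, b, M => (if M ≤ 100 then 1 else 0) + vis n (b / 2) (st b M)

open Classical in
/-- the visits of the orbit to `[-R, R]` -/
noncomputable def visx (d : ℤ) (R : ℝ) : ℕ → ℤ → ℕ
  | 0, _ => 0
  | n + 1, x => (if |(x : ℝ)| ≤ R then 1 else 0) + visx d R n (T d x)

theorem T_abs {d : ℤ} (hd : d % 2 = 1) {y : ℝ} (hy : |(d : ℝ)| ≤ y) {x : ℤ} {M : ℝ} (h : |(x : ℝ)| ≤ M * y) :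
    |((T d x : ℤ) : ℝ)| ≤ (if x % 2 = 0 then M / 2 else (3 * M + 1) / 2) * y := by
  rcases Int.emod_two_eq_zero_or_one x with hx | hx
  · rw [if_pos hx]
    have e : (2 : ℝ) * (T d x : ℝ) = x := by exact_mod_cast T_even (d := d) hx
    have e2 : |(x : ℝ)| = 2 * |((T d x : ℤ) : ℝ)| := by rw [← e, abs_mul]; norm_num
    rw [e2] at h
    linarith
  · rw [if_neg (by omega)]
    have e : (2 : ℝ) * (T d x : ℝ) = 3 * x + d := by exact_mod_cast T_odd hd hx
    have e2 : 2 * |((T d x : ℤ) : ℝ)| = |3 * (x : ℝ) + d| := by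
      rw [← e, abs_mul]; norm_num
    have e3 : |3 * (x : ℝ) + d| ≤ 3 * |(x : ℝ)| + |(d : ℝ)| := by
      refine (abs_add_le _ _).trans ?_
      rw [abs_mul]; norm_num
    linarith

theorem st_code (d : ℤ) (n : ℕ) (x : ℤ) (M : ℝ) :
    st (code d (n + 1) x) M = (if x % 2 = 0 then M / 2 else (3 * M + 1) / 2) := by
  have e : code d (n + 1) x % 2 = (x % 2).toNat := by
    simp only [code]
    have : (x % 2).toNat ≤ 1 := by omega
    omega
  unfold st
  rcases Int.emod_two_eq_zero_or_one x with hx | hx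
  · rw [if_pos (by omega), if_pos hx]
  · rw [if_neg (by omega), if_neg (by omega)]

theorem code_half (d : ℤ) (n : ℕ) (x : ℤ) : code d (n + 1) x / 2 = code d n (T d x) := by
  simp only [code]
  have : (x % 2).toNat ≤ 1 := by omega
  omega

theorem vis_le {d : ℤ} (hd : d % 2 = 1) {y : ℝ} (hy : |(d : ℝ)| ≤ y) : ∀ (n : ℕ) (x : ℤ) (M : ℝ),
    |(x : ℝ)| ≤ M * y → vis n (code d n x) M ≤ visx d (100 * y) n x
  | 0, _, _, _ => by simp [vis]
  | n + 1, x, M, h => by
      have hy0 : 0 ≤ y := (abs_nonneg _).trans hy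
      simp only [vis, visx]
      rw [code_half, st_code]
      have h1 := vis_le hd hy n (T d x) _ (T_abs hd hy h)
      refine add_le_add ?_ h1
      by_cases hM : M ≤ 100
      · rw [if_pos hM, if_pos (h.trans (mul_le_mul_of_nonneg_right hM hy0))]
      · rw [if_neg hM]; exact Nat.zero_le _

/-- the potential -/
noncomputable def V (M : ℝ) : ℝ := max (Real.sqrt M) 1

theorem one_le_V (M : ℝ) : 1 ≤ V M := le_max_right _ _

theorem V_mono {M N : ℝ} (h : M ≤ N) : V M ≤ V N := max_le_max (Real.sqrt_le_sqrt h) le_rfl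

/-- the weight of a visit: `0.978 ^ 10` -/
noncomputable def lam : ℝ := (0.978 : ℝ) ^ 10

theorem V_avg {M : ℝ} (hM : 0 ≤ M) : (if M ≤ 100 then lam else 1) * (V (M / 2) + V ((3 * M + 1) / 2)) ≤
    1.94 * V M := by
  split_ifs with h
  · -- a visit
    have h1 : V (M / 2) ≤ V M := V_mono (by linarith)
    have h2 : V ((3 * M + 1) / 2) ≤ 1.4143 * V M := by
      unfold V
      refine max_le ?_ ?_
      · rw [Real.sqrt_le_left (by positivity)]
        have hs : (max (Real.sqrt M) 1) ^ 2 = max M 1 := by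
          rcases le_total 1 (Real.sqrt M) with h3 | h3
          · rw [max_eq_left h3, Real.sq_sqrt hM, max_eq_left]
            calc (1 : ℝ) ≤ (Real.sqrt M) ^ 2 := by nlinarith
              _ = M := Real.sq_sqrt hM
          · rw [max_eq_right h3, max_eq_right]
            · norm_num
            · calc M = (Real.sqrt M) ^ 2 := (Real.sq_sqrt hM).symm
                _ ≤ 1 := by nlinarith [Real.sqrt_nonneg M]
        rw [mul_pow, hs]
        have h4 : M ≤ max M 1 := le_max_left _ _
        have h5 : (1 : ℝ) ≤ max M 1 := le_max_right _ _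
        nlinarith
      · have := le_max_right (Real.sqrt M) 1
        linarith
    have h3 : lam ≤ 0.8006 := by unfold lam; norm_num
    have h4 : 0 < lam := by unfold lam; norm_num
    have h5 := one_le_V M
    calc lam * (V (M / 2) + V ((3 * M + 1) / 2)) ≤ lam * (V M + 1.4143 * V M) :=
          mul_le_mul_of_nonneg_left (add_le_add h1 h2) h4.le
      _ ≤ 0.8006 * (V M + 1.4143 * V M) := mul_le_mul_of_nonneg_right h3 (by nlinarith)
      _ ≤ 1.94 * V M := by nlinarith
  · push Not at h
    have hM1 : V M = Real.sqrt M := by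
      unfold V
      refine max_eq_left ?_
      rw [Real.le_sqrt' (by norm_num)]
      linarith
    have h1 : V (M / 2) ≤ 0.7072 * Real.sqrt M := by
      unfold V
      refine max_le ?_ ?_
      · rw [Real.sqrt_le_left (by positivity), mul_pow, Real.sq_sqrt hM]
        nlinarith
      · have : (10 : ℝ) ≤ Real.sqrt M := by
          rw [Real.le_sqrt' (by norm_num)]; linarith
        linarith
    have h2 : V ((3 * M + 1) / 2) ≤ 1.2269 * Real.sqrt M := by
      unfold V
      refine max_le ?_ ?_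
      · rw [Real.sqrt_le_left (by positivity), mul_pow, Real.sq_sqrt hM]
        nlinarith
      · have : (10 : ℝ) ≤ Real.sqrt M := by
          rw [Real.le_sqrt' (by norm_num)]; linarith
        linarith
    rw [hM1]
    have := Real.sqrt_nonneg M
    linarith

open Classical in
/-- the weighted sum -/
noncomputable def G : ℕ → ℕ → ℝ → ℝ
  | 0, _, M => V M
  | n + 1, b, M => (if M ≤ 100 then lam else 1) * G n (b / 2) (st b M)

theorem lam_pos : 0 < lam := by unfold lam; norm_num

theorem lam_le : lam ≤ 1 := by unfold lam; norm_num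

theorem vis_le_G : ∀ (n b : ℕ) (M : ℝ), lam ^ (vis n b M) ≤ G n b M
  | 0, b, M => by simpa [vis, G] using one_le_V M
  | n + 1, b, M => by
      simp only [vis, G]
      rw [pow_add]
      have h := vis_le_G n (b / 2) (st b M)
      have h0 : 0 ≤ lam ^ (vis n (b / 2) (st b M)) := pow_nonneg lam_pos.le _
      split_ifs with hM
      · rw [pow_one]; exact mul_le_mul_of_nonneg_left h lam_pos.le
      · simpa using h

theorem sum_range_double (f : ℕ → ℝ) (m : ℕ) :
    ∑ b ∈ range (2 * m), f b = ∑ s ∈ range m, (f (2 * s) + f (2 * s + 1)) := by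
  induction m with
  | zero => simp
  | succ m ih =>
    rw [show 2 * (m + 1) = 2 * m + 1 + 1 by ring, sum_range_succ, sum_range_succ, ih,
      sum_range_succ]
    ring

theorem st_nonneg {b : ℕ} {M : ℝ} (hM : 0 ≤ M) : 0 ≤ st b M := by
  unfold st; split_ifs <;> linarith

theorem sum_G : ∀ (n : ℕ) (M : ℝ), 0 ≤ M → ∑ b ∈ range (2 ^ n), G n b M ≤ (1.94 : ℝ) ^ n * V M
  | 0, M, _ => by simp [G]
  | n + 1, M, hM => by
      rw [pow_succ, mul_comm, sum_range_double]
      have e : ∀ s : ℕ, G (n + 1) (2 * s) M + G (n + 1) (2 * s + 1) M =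
          (if M ≤ 100 then lam else 1) * (G n s (M / 2) + G n s ((3 * M + 1) / 2)) := by
        intro s
        simp only [G, st]
        rw [show 2 * s / 2 = s by omega, show (2 * s + 1) / 2 = s by omega,
          if_pos (show 2 * s % 2 = 0 by omega), if_neg (show ¬ (2 * s + 1) % 2 = 0 by omega)]
        split_ifs <;> ring
      simp only [e]
      rw [← mul_sum, sum_add_distrib]
      have h1 := sum_G n (M / 2) (by linarith)
      have h2 := sum_G n ((3 * M + 1) / 2) (by linarith)
      have h0 : (0 : ℝ) ≤ if M ≤ 100 then lam else 1 := by split_ifs; exacts [lam_pos.le, zero_le_one]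
      calc _ ≤ (if M ≤ 100 then lam else 1) * ((1.94 : ℝ) ^ n * V (M / 2) + (1.94 : ℝ) ^ n * V ((3 * M + 1) / 2)) :=
            mul_le_mul_of_nonneg_left (add_le_add h1 h2) h0
        _ = (1.94 : ℝ) ^ n * ((if M ≤ 100 then lam else 1) * (V (M / 2) + V ((3 * M + 1) / 2))) := by ring
        _ ≤ (1.94 : ℝ) ^ n * (1.94 * V M) := mul_le_mul_of_nonneg_left (V_avg hM) (by positivity)
        _ = (1.94 : ℝ) ^ (n + 1) * V M := by ring

open Classical in
/-- few codes with few visits -/
theorem bad_codes (n : ℕ) : (#{b ∈ range (2 ^ n) | 10 * vis n b 100 < n} : ℝ) ≤ 10 * 2 ^ n * (0.992 : ℝ) ^ n := by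
  have h1 := sum_G n 100 (by norm_num)
  have hV : V 100 = 10 := by
    unfold V
    rw [show (100 : ℝ) = 10 ^ 2 by norm_num, Real.sqrt_sq (by norm_num)]
    norm_num
  rw [hV] at h1
  have h2 : (#{b ∈ range (2 ^ n) | 10 * vis n b 100 < n} : ℝ) * (0.978 : ℝ) ^ n ≤
      ∑ b ∈ range (2 ^ n), G n b 100 := by
    calc (#{b ∈ range (2 ^ n) | 10 * vis n b 100 < n} : ℝ) * (0.978 : ℝ) ^ n
        = ∑ b ∈ range (2 ^ n) with 10 * vis n b 100 < n, (0.978 : ℝ) ^ n := by
          rw [sum_const, nsmul_eq_mul]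
      _ ≤ ∑ b ∈ range (2 ^ n) with 10 * vis n b 100 < n, G n b 100 := by
          refine sum_le_sum fun b hb => ?_
          have hb2 := (mem_filter.1 hb).2
          refine le_trans ?_ (vis_le_G n b 100)
          unfold lam
          rw [← pow_mul]
          exact pow_le_pow_of_le_one (by norm_num) (by norm_num) hb2.le
      _ ≤ ∑ b ∈ range (2 ^ n), G n b 100 :=
          sum_le_sum_of_subset_of_nonneg (filter_subset _ _) fun b _ _ =>
            (pow_nonneg lam_pos.le _).trans (vis_le_G n b 100)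
  have h3 := h2.trans h1
  have h4 : (1.94 : ℝ) ^ n * 10 ≤ (10 * 2 ^ n * (0.992 : ℝ) ^ n) * (0.978 : ℝ) ^ n := by
    have : (1.94 : ℝ) ^ n ≤ (2 * 0.992 * 0.978) ^ n := pow_le_pow_left₀ (by norm_num) (by norm_num) n
    rw [mul_pow, mul_pow] at this
    nlinarith
  exact le_of_mul_le_mul_right (h3.trans h4) (by positivity)

/-- a set of integers of `[-R, R]` in one class modulo `m` -/
theorem card_class {R : ℝ} (hR : 0 ≤ R) {m : ℕ} (hm : 1 ≤ m) (S : Finset ℤ) (hS : ∀ x ∈ S, |(x : ℝ)| ≤ R)
    (hc : ∀ x ∈ S, ∀ y ∈ S, (m : ℤ) ∣ x - y) : (#S : ℝ) ≤ 2 * R / m + 1 := by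
  rcases S.eq_empty_or_nonempty with rfl | hne
  · simp only [card_empty, Nat.cast_zero]; positivity
  set a := S.min' hne with ha
  have ham : a ∈ S := S.min'_mem hne
  have hm0 : (0 : ℝ) < m := by exact_mod_cast hm
  -- injection into range (⌊2R/m⌋+1)
  have h1 : #S ≤ #(range (⌊2 * R / m⌋₊ + 1)) := by
    refine card_le_card_of_injOn (fun x => ((x - a) / m).toNat) ?_ ?_
    · intro x hx
      have hx' : x ∈ S := hx
      obtain ⟨k, hk⟩ := hc x hx' a ham
      have hle : a ≤ x := S.min'_le x hx'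
      have hmz : (0 : ℤ) < m := by exact_mod_cast hm
      have hk0 : 0 ≤ k := by
        by_contra hneg
        push Not at hneg
        nlinarith
      have ek : (x - a) / m = k := by rw [hk]; exact Int.mul_ediv_cancel_left _ hmz.ne'
      simp only [coe_range, Set.mem_Iio]
      rw [ek, Nat.lt_add_one_iff, Nat.le_floor_iff (by positivity), le_div_iff₀ hm0]
      have e1 : ((k.toNat : ℕ) : ℝ) = (k : ℝ) := by
        have : ((k.toNat : ℕ) : ℤ) = k := Int.toNat_of_nonneg hk0
        exact_mod_cast this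
      rw [e1]
      have e2 : (k : ℝ) * m = x - a := by
        have : (x : ℝ) - a = m * k := by exact_mod_cast hk
        linarith
      rw [e2]
      have h3 := hS x hx'
      have h4 := hS a ham
      rw [abs_le] at h3 h4
      linarith
    · intro x hx y hy hxy
      have hx' : x ∈ S := hx
      have hy' : y ∈ S := hy
      obtain ⟨k, hk⟩ := hc x hx' a ham
      obtain ⟨l, hl⟩ := hc y hy' a ham
      have hmz : (0 : ℤ) < m := by exact_mod_cast hm
      have hle : a ≤ x := S.min'_le x hx'
      have hle' : a ≤ y := S.min'_le y hy'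
      have hk0 : 0 ≤ k := by
        by_contra hneg
        push Not at hneg
        nlinarith
      have hl0 : 0 ≤ l := by
        by_contra hneg
        push Not at hneg
        nlinarith
      have ek : (x - a) / m = k := by rw [hk]; exact Int.mul_ediv_cancel_left _ hmz.ne'
      have el : (y - a) / m = l := by rw [hl]; exact Int.mul_ediv_cancel_left _ hmz.ne'
      simp only [ek, el] at hxy
      have hkl : k = l := by omega
      subst hkl
      omega
  have h2 : (#S : ℝ) ≤ (⌊2 * R / m⌋₊ : ℝ) + 1 := by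
    rw [card_range] at h1
    exact_mod_cast h1
  have h3 : ((⌊2 * R / m⌋₊ : ℕ) : ℝ) ≤ 2 * R / m := Nat.floor_le (by positivity)
  linarith

/-- few elements of a box with few visits -/
theorem bad_points {d : ℤ} (hd : d % 2 = 1) {y : ℝ} (hy : |(d : ℝ)| ≤ y) {n : ℕ} (hn : (2 : ℝ) ^ n ≤ y)
    (S : Finset ℤ) (hS : ∀ x ∈ S, |(x : ℝ)| ≤ 100 * y ∧ 10 * visx d (100 * y) n x < n) :
    (#S : ℝ) ≤ 2010 * y * (0.992 : ℝ) ^ n := by
  classical
  have hy0 : 0 < y := lt_of_lt_of_le (by positivity) hn
  set B := (range (2 ^ n)).filter (fun b => 10 * vis n b 100 < n) with hB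
  have h1 : S ⊆ B.biUnion (fun b => S.filter (fun x => code d n x = b)) := by
    intro x hx
    rw [mem_biUnion]
    refine ⟨code d n x, ?_, ?_⟩
    · rw [hB, mem_filter]
      refine ⟨mem_range.2 (code_lt d n x), ?_⟩
      have := vis_le hd hy n x 100 (hS x hx).1
      have := (hS x hx).2
      omega
    · exact mem_filter.2 ⟨hx, rfl⟩
  have h2 : (#S : ℝ) ≤ ∑ b ∈ B, (#(S.filter (fun x => code d n x = b)) : ℝ) := by
    have := (card_le_card h1).trans card_biUnion_le
    exact_mod_cast this
  have h3 : ∀ b ∈ B, (#(S.filter (fun x => code d n x = b)) : ℝ) ≤ 201 * y / 2 ^ n := by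
    intro b _
    refine (card_class (R := 100 * y) (by positivity) (m := 2 ^ n) (Nat.one_le_two_pow) _ ?_ ?_).trans ?_
    · intro x hx
      exact (hS x (mem_filter.1 hx).1).1
    · intro x hx z hz
      have : code d n x = code d n z := (mem_filter.1 hx).2.trans (mem_filter.1 hz).2.symm
      have h := dvd_of_code hd this
      exact_mod_cast h
    · push_cast
      rw [le_div_iff₀ (by positivity), add_mul, div_mul_cancel₀ _ (by positivity)]
      linarith
  have h4 := bad_codes n
  calc (#S : ℝ) ≤ ∑ b ∈ B, (201 * y / 2 ^ n) := h2.trans (sum_le_sum h3)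
    _ = #B * (201 * y / 2 ^ n) := by rw [sum_const, nsmul_eq_mul]
    _ ≤ (10 * 2 ^ n * (0.992 : ℝ) ^ n) * (201 * y / 2 ^ n) :=
        mul_le_mul_of_nonneg_right h4 (by positivity)
    _ = 2010 * y * (0.992 : ℝ) ^ n := by field_simp; ring

end Pool.Agent.H33.NC
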