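import Pool.Agent.H33.NC.Dyn

/-!
# Almost all `3 x + d` maps have no short cycles

(From the library module `R_pool_sql_team_seeded_3997aac3.Q64.CY.Alm`.)
-/

set_option autoImplicit false

namespace Pool.Agent.H33.NC.Q64

open Finset Nat

/-- the logarithm of the `y`-smooth part of `n` -/
noncomputable def lsm (y n : ℕ) : ℝ :=
  ∑ p ∈ (range (y + 1)).filter Nat.Prime, (n.factorization p : ℝ) * Real.log p

lemma lsm_mono {y m n : ℕ} (hn : n ≠ 0) (h : m ∣ n) : lsm y m ≤ lsm y n := by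
  unfold lsm
  refine Finset.sum_le_sum fun p hp => ?_
  have h1 : m.factorization p ≤ n.factorization p := by
    have hm : m ≠ 0 := ne_zero_of_dvd_ne_zero hn h
    exact (Nat.factorization_le_iff_dvd hm hn).2 h p
  have h2 : (0 : ℝ) ≤ Real.log p := Real.log_natCast_nonneg p
  have h3 : (m.factorization p : ℝ) ≤ n.factorization p := by exact_mod_cast h1
  exact mul_le_mul_of_nonneg_right h3 h2

lemma log_eq_sum {n : ℕ} (hn : n ≠ 0) :
    Real.log n = ∑ p ∈ n.primeFactors, (n.factorization p : ℝ) * Real.log p := by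
  conv_lhs => rw [← Nat.prod_factorization_pow_eq_self hn]
  rw [Finsupp.prod, Nat.cast_prod, Real.log_prod]
  · rw [Nat.support_factorization]
    refine Finset.sum_congr rfl fun p hp => ?_
    rw [Nat.cast_pow, Real.log_pow]
  · intro p hp
    have := Nat.prime_of_mem_primeFactors (Nat.support_factorization n ▸ hp)
    have h2 := this.pos
    positivity

lemma lsm_smooth {y n : ℕ} (hn : n ≠ 0) (h : ∀ p, p.Prime → p ∣ n → p ≤ y) :
    lsm y n = Real.log n := by
  rw [log_eq_sum hn]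
  unfold lsm
  symm
  refine Finset.sum_subset ?_ ?_
  · intro p hp
    rw [Finset.mem_filter, Finset.mem_range]
    have h1 := Nat.prime_of_mem_primeFactors hp
    have h2 := Nat.dvd_of_mem_primeFactors hp
    have := h p h1 h2
    exact ⟨by omega, h1⟩
  · intro p _ hp
    have : n.factorization p = 0 := by
      rw [← Nat.support_factorization] at hp
      exact Finsupp.notMem_support_iff.1 hp
    rw [this]; simp

lemma lsm_le_log {y n : ℕ} (hn : n ≠ 0) : lsm y n ≤ Real.log n := by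
  rw [log_eq_sum hn]
  unfold lsm
  have h1 : ∑ p ∈ (range (y + 1)).filter Nat.Prime, (n.factorization p : ℝ) * Real.log p ≤
      ∑ p ∈ ((range (y + 1)).filter Nat.Prime) ∪ n.primeFactors,
        (n.factorization p : ℝ) * Real.log p := by
    refine Finset.sum_le_sum_of_subset_of_nonneg Finset.subset_union_left fun p _ _ => ?_
    have := Real.log_natCast_nonneg p
    positivity
  refine h1.trans (le_of_eq ?_)
  symm
  refine Finset.sum_subset Finset.subset_union_right ?_
  intro p _ hp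
  have : n.factorization p = 0 := by
    rw [← Nat.support_factorization] at hp
    exact Finsupp.notMem_support_iff.1 hp
  rw [this]; simp

/-- a weak form of Mertens' theorem -/
lemma mertens (y : ℕ) :
    ∑ p ∈ (range (y + 1)).filter Nat.Prime, Real.log p / ((p : ℝ) - 1) ≤ 4 * Real.log y := by
  rcases Nat.eq_zero_or_pos y with rfl | hy
  · have : (range (0 + 1)).filter Nat.Prime = ∅ := by decide
    rw [this]; simp
  have h1 : lsm y (y !) ≤ y * Real.log y := by
    refine (lsm_le_log (Nat.factorial_ne_zero y)).trans ?_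
    have h2 : ((y ! : ℕ) : ℝ) ≤ (y : ℝ) ^ y := by exact_mod_cast Nat.factorial_le_pow y
    have h3 := Real.log_le_log (by exact_mod_cast Nat.factorial_pos y) h2
    rwa [Real.log_pow] at h3
  have hyr : (0 : ℝ) < y := by exact_mod_cast hy
  have h2 : (y : ℝ) / 4 * ∑ p ∈ (range (y + 1)).filter Nat.Prime, Real.log p / ((p : ℝ) - 1) ≤
      lsm y (y !) := by
    rw [Finset.mul_sum]
    unfold lsm
    refine Finset.sum_le_sum fun p hp => ?_
    rw [Finset.mem_filter, Finset.mem_range] at hp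
    obtain ⟨hpy, hp⟩ := hp
    have hp2 := hp.two_le
    have hl : (0 : ℝ) ≤ Real.log p := Real.log_natCast_nonneg p
    have h3 : y / p ≤ (y !).factorization p := by
      have h4 : p ^ (y / p) ∣ y ! := by
        rw [hp.pow_dvd_factorial_iff (Nat.lt_add_one (Nat.log p y))]
        have h5 : 1 ∈ Ico 1 (Nat.log p y + 1) := by
          rw [Finset.mem_Ico]
          have := Nat.log_pos hp.one_lt (by omega : p ≤ y)
          omega
        have h6 := Finset.single_le_sum (f := fun i => y / p ^ i) (fun i _ => Nat.zero_le _) h5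
        simpa using h6
      exact (hp.pow_dvd_iff_le_factorization (Nat.factorial_ne_zero y)).1 h4
    have h4 : (y : ℝ) / 4 / ((p : ℝ) - 1) ≤ ((y !).factorization p : ℝ) := by
      refine le_trans ?_ (by exact_mod_cast h3 : ((y / p : ℕ) : ℝ) ≤ _)
      have hp2r : (2 : ℝ) ≤ p := by exact_mod_cast hp2
      rw [div_div, div_le_iff₀ (by linarith)]
      have h5 : y < p * (y / p + 1) := Nat.lt_mul_div_succ y hp.pos
      have h6 : 1 ≤ y / p := (Nat.one_le_div_iff hp.pos).2 (by omega)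
      have h7 : (y : ℝ) ≤ p * ((y / p : ℕ) + 1) := by exact_mod_cast h5.le
      have h8 : (1 : ℝ) ≤ ((y / p : ℕ) : ℝ) := by exact_mod_cast h6
      nlinarith
    calc (y : ℝ) / 4 * (Real.log p / ((p : ℝ) - 1)) = (y : ℝ) / 4 / ((p : ℝ) - 1) * Real.log p := by
          ring
      _ ≤ _ := mul_le_mul_of_nonneg_right h4 hl
  have h3 := h2.trans h1
  have h4 : (y : ℝ) / 4 * ∑ p ∈ (range (y + 1)).filter Nat.Prime, Real.log p / ((p : ℝ) - 1) ≤
      y / 4 * (4 * Real.log y) := by linarith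
  exact le_of_mul_le_mul_left h4 (by positivity)

lemma sum_lsm (X y : ℕ) : ∑ d ∈ Icc 1 X, lsm y d ≤ 4 * Real.log y * X := by
  have h1 : ∑ d ∈ Icc 1 X, lsm y d = lsm y (X !) := by
    unfold lsm
    rw [Finset.sum_comm]
    refine Finset.sum_congr rfl fun p _ => ?_
    rw [← Finset.sum_mul]
    congr 1
    induction X with
    | zero => simp
    | succ n ih =>
      rw [Finset.sum_Icc_succ_top (by omega), ih, Nat.factorial_succ,
        Nat.factorization_mul (by omega) (Nat.factorial_ne_zero n)]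
      simp [add_comm]
  rw [h1]
  refine le_trans ?_ (mul_le_mul_of_nonneg_right (mertens y) (Nat.cast_nonneg X))
  unfold lsm
  rw [Finset.sum_mul]
  refine Finset.sum_le_sum fun p hp => ?_
  rw [Finset.mem_filter, Finset.mem_range] at hp
  have hp2 := hp.2.two_le
  have hp2r : (2 : ℝ) ≤ p := by exact_mod_cast hp2
  have hl : (0 : ℝ) ≤ Real.log p := Real.log_natCast_nonneg p
  have h2 : ((X !).factorization p : ℝ) ≤ X / ((p : ℝ) - 1) := by
    have h3 := Nat.factorization_factorial_le_div_pred hp.2 X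
    have h4 : ((X !).factorization p : ℝ) ≤ ((X / (p - 1) : ℕ) : ℝ) := by exact_mod_cast h3
    refine h4.trans (Nat.cast_div_le.trans ?_)
    rw [Nat.cast_sub (by omega)]
    simp
  calc ((X !).factorization p : ℝ) * Real.log p ≤ X / ((p : ℝ) - 1) * Real.log p :=
        mul_le_mul_of_nonneg_right h2 hl
    _ = Real.log p / ((p : ℝ) - 1) * X := by ring

lemma card_primeFactors_le {M L : ℕ} (hM : M ≠ 0) (h : M ≤ 2 ^ L) : M.primeFactors.card ≤ L := by
  have h1 : 2 ^ M.primeFactors.card ≤ ∏ p ∈ M.primeFactors, p := by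
    rw [← Finset.prod_const]
    exact Finset.prod_le_prod' fun p hp => (Nat.prime_of_mem_primeFactors hp).two_le
  have h2 : ∏ p ∈ M.primeFactors, p ≤ M := Nat.le_of_dvd (Nat.pos_of_ne_zero hM)
    (Nat.prod_primeFactors_dvd M)
  exact (Nat.pow_le_pow_iff_right (by norm_num)).1 (h1.trans (h2.trans h))

theorem pow_ne {n m : ℕ} (hn : 1 ≤ n) : (2 : ℤ) ^ n ≠ 3 ^ m := by
  intro h
  have h1 : (2 : ℤ) ^ n % 2 = 0 := by
    obtain ⟨k, rfl⟩ : ∃ k, n = k + 1 := ⟨n - 1, by omega⟩
    rw [pow_succ]; omega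
  have h2 : (3 : ℤ) ^ m % 2 = 1 := by
    rw [← Int.odd_iff]; exact Odd.pow (by decide)
  omega

lemma sub_natAbs_le {n m : ℕ} (hm : m ≤ n) (hn : 1 ≤ n) :
    ((2 : ℤ) ^ n - 3 ^ m).natAbs ≤ 3 ^ n ∧ ((2 : ℤ) ^ n - 3 ^ m).natAbs ≠ 0 := by
  constructor
  · have h1 : (2 : ℤ) ^ n ≤ 3 ^ n := pow_le_pow_left₀ (by norm_num) (by norm_num) n
    have h2 : (3 : ℤ) ^ m ≤ 3 ^ n := pow_le_pow_right₀ (by norm_num) hm
    have h3 : (0 : ℤ) < 2 ^ n := by positivity
    have h4 : (0 : ℤ) < 3 ^ m := by positivity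
    have : |(2 : ℤ) ^ n - 3 ^ m| ≤ 3 ^ n := abs_le.2 ⟨by linarith, by linarith⟩
    have h5 : (((2 : ℤ) ^ n - 3 ^ m).natAbs : ℤ) ≤ ((3 ^ n : ℕ) : ℤ) := by
      rw [Int.natCast_natAbs]; push_cast; exact this
    exact_mod_cast h5
  · rw [Int.natAbs_ne_zero, sub_ne_zero]
    exact pow_ne hn

open Classical in
/-- the bad moduli -/
theorem almost_all (X N : ℕ) (hN : 2 ≤ N) (z : ℝ) (hz : 1 ≤ z) :
    (((Icc 1 X).filter fun d : ℕ => d % 2 = 1 ∧ ∃ (x : ℤ) (n : ℕ), 1 ≤ n ∧ n ≤ N ∧
      (T (d : ℤ))^[n] x ≡ x [ZMOD (d : ℤ)] ∧ z * (Int.gcd x d : ℝ) ≤ d).card : ℝ) * Real.log z ≤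
      21 * X * Real.log N := by
  classical
  set B := (Icc 1 X).filter fun d : ℕ => d % 2 = 1 ∧ ∃ (x : ℤ) (n : ℕ), 1 ≤ n ∧ n ≤ N ∧
      (T (d : ℤ))^[n] x ≡ x [ZMOD (d : ℤ)] ∧ z * (Int.gcd x d : ℝ) ≤ d with hB
  have hlogN : 0 < Real.log N := Real.log_pos (by exact_mod_cast (by omega : 1 < N))
  have hlogz : 0 ≤ Real.log z := Real.log_nonneg hz
  -- the divisor attached to a bad modulus
  have key : ∀ d ∈ B, ∃ D n m : ℕ, D ∣ d ∧ 1 ≤ n ∧ n ≤ N ∧ m ≤ n ∧
      D ∣ ((2 : ℤ) ^ n - 3 ^ m).natAbs ∧ z ≤ D ∧ D ≠ 0 := by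
    intro d hd
    rw [hB, Finset.mem_filter, Finset.mem_Icc] at hd
    obtain ⟨⟨hd1, hdX⟩, hodd, x, n, hn1, hnN, hret, hg⟩ := hd
    have h1 := return_dvd (k := (d : ℤ)) (by omega) hret
    rw [Int.natAbs_natCast] at h1
    have hgpos : 0 < Nat.gcd x.natAbs d := Nat.gcd_pos_of_pos_right _ (by omega)
    have hgd : Nat.gcd x.natAbs d ∣ d := Nat.gcd_dvd_right _ _
    have hg' : Int.gcd x d = Nat.gcd x.natAbs d := by
      rw [Int.gcd, Int.natAbs_natCast]
    refine ⟨d / Nat.gcd x.natAbs d, n, odds d n x, Nat.div_dvd_of_dvd hgd, hn1, hnN,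
      odds_le _ _ _, ?_, ?_, ?_⟩
    · exact Int.natCast_dvd.1 h1
    · rw [hg'] at hg
      rw [Nat.cast_div hgd (by exact_mod_cast hgpos.ne'), le_div_iff₀ (by exact_mod_cast hgpos)]
      exact hg
    · exact (Nat.div_pos (Nat.le_of_dvd (by omega) hgd) hgpos).ne'
  -- `log z ≤ N log 3` if there is a bad modulus
  rcases B.eq_empty_or_nonempty with he | ⟨d₀, hd₀⟩
  · rw [he]; simp; positivity
  have hzN : Real.log z ≤ N * Real.log 3 := by
    obtain ⟨D, n, m, -, hn1, hnN, hmn, hD, hzD, hD0⟩ := key d₀ hd₀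
    obtain ⟨h1, h2⟩ := sub_natAbs_le hmn hn1
    have h3 : D ≤ 3 ^ N := (Nat.le_of_dvd (Nat.pos_of_ne_zero h2) hD).trans
      (h1.trans (Nat.pow_le_pow_right (by norm_num) hnN))
    have h4 : z ≤ (3 : ℝ) ^ N := hzD.trans (by exact_mod_cast h3)
    have h5 := Real.log_le_log (by linarith) h4
    rwa [Real.log_pow] at h5
  -- the primes
  set y := N ^ 4 with hy
  set P := ((Icc 1 N).biUnion fun n => (range (n + 1)).biUnion fun m =>
    ((2 : ℤ) ^ n - 3 ^ m).natAbs.primeFactors).filter fun p => y < p with hP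
  have hPcard : P.card ≤ N * ((N + 1) * (2 * N)) := by
    refine (Finset.card_filter_le _ _).trans ?_
    refine Finset.card_biUnion_le.trans ?_
    calc ∑ n ∈ Icc 1 N, ((range (n + 1)).biUnion fun m =>
          ((2 : ℤ) ^ n - 3 ^ m).natAbs.primeFactors).card ≤ ∑ n ∈ Icc 1 N, (N + 1) * (2 * N) := by
          refine Finset.sum_le_sum fun n hn => ?_
          rw [Finset.mem_Icc] at hn
          refine Finset.card_biUnion_le.trans ?_
          calc ∑ m ∈ range (n + 1), (((2 : ℤ) ^ n - 3 ^ m).natAbs.primeFactors).card ≤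
              ∑ m ∈ range (n + 1), 2 * N := by
                refine Finset.sum_le_sum fun m hm => ?_
                rw [Finset.mem_range] at hm
                obtain ⟨h1, h2⟩ := sub_natAbs_le (n := n) (m := m) (by omega) hn.1
                refine card_primeFactors_le h2 (h1.trans ?_)
                calc 3 ^ n ≤ 4 ^ n := Nat.pow_le_pow_left (by norm_num) n
                  _ = 2 ^ (2 * n) := by rw [pow_mul]; norm_num
                  _ ≤ 2 ^ (2 * N) := Nat.pow_le_pow_right (by norm_num) (by omega)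
            _ = (n + 1) * (2 * N) := by rw [Finset.sum_const, Finset.card_range, smul_eq_mul]
            _ ≤ (N + 1) * (2 * N) := Nat.mul_le_mul_right _ (by omega)
      _ = N * ((N + 1) * (2 * N)) := by
        rw [Finset.sum_const, Nat.card_Icc, smul_eq_mul]; simp
  set B1 := P.biUnion fun p => (Icc 1 X).filter fun d => p ∣ d with hB1
  set B2 := (Icc 1 X).filter fun d => Real.log z ≤ lsm y d with hB2
  have hsub : B ⊆ B1 ∪ B2 := by
    intro d hd
    obtain ⟨D, n, m, hDd, hn1, hnN, hmn, hD, hzD, hD0⟩ := key d hd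
    obtain ⟨h1, h2⟩ := sub_natAbs_le hmn hn1
    have hdX : d ∈ Icc 1 X := (Finset.mem_filter.1 hd).1
    have hd0 : d ≠ 0 := by have := Finset.mem_Icc.1 hdX; omega
    rw [Finset.mem_union]
    by_cases hsm : ∀ p, p.Prime → p ∣ D → p ≤ y
    · right
      rw [hB2, Finset.mem_filter]
      refine ⟨hdX, ?_⟩
      calc Real.log z ≤ Real.log D := Real.log_le_log (by linarith) hzD
        _ = lsm y D := (lsm_smooth hD0 hsm).symm
        _ ≤ lsm y d := lsm_mono hd0 hDd
    · left
      push Not at hsm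
      obtain ⟨p, hp, hpD, hpy⟩ := hsm
      rw [hB1, Finset.mem_biUnion]
      refine ⟨p, ?_, Finset.mem_filter.2 ⟨hdX, hpD.trans hDd⟩⟩
      rw [hP, Finset.mem_filter, Finset.mem_biUnion]
      refine ⟨⟨n, Finset.mem_Icc.2 ⟨hn1, hnN⟩, ?_⟩, hpy⟩
      rw [Finset.mem_biUnion]
      exact ⟨m, Finset.mem_range.2 (by omega), Nat.mem_primeFactors.2 ⟨hp, hpD.trans hD, h2⟩⟩
  have hNr : (2 : ℝ) ≤ N := by exact_mod_cast hN
  have hXr : (0 : ℝ) ≤ X := Nat.cast_nonneg X
  have hB1c : (B1.card : ℝ) ≤ 3 * X / N := by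
    have h1 : (B1.card : ℝ) ≤ ∑ p ∈ P, ((X : ℝ) / y) := by
      have h2 : B1.card ≤ ∑ p ∈ P, ((Icc 1 X).filter fun d => p ∣ d).card := Finset.card_biUnion_le
      have h3 : (B1.card : ℝ) ≤ ∑ p ∈ P, (((Icc 1 X).filter fun d => p ∣ d).card : ℝ) := by
        exact_mod_cast h2
      refine h3.trans (Finset.sum_le_sum fun p hp => ?_)
      have hyp : y < p := (Finset.mem_filter.1 hp).2
      have h4 : ((Icc 1 X).filter fun d => p ∣ d).card = X / p := by
        rw [← Nat.Ioc_filter_dvd_card_eq_div]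
        congr 1
      rw [h4]
      refine Nat.cast_div_le.trans ?_
      have hy0 : (0 : ℝ) < y := by rw [hy]; positivity
      exact div_le_div_of_nonneg_left hXr hy0 (by exact_mod_cast hyp.le)
    rw [Finset.sum_const, nsmul_eq_mul] at h1
    have h2 : (P.card : ℝ) ≤ N * ((N + 1) * (2 * N)) := by exact_mod_cast hPcard
    have h3 : (P.card : ℝ) * ((X : ℝ) / y) ≤ N * ((N + 1) * (2 * N)) * ((X : ℝ) / y) :=
      mul_le_mul_of_nonneg_right h2 (by positivity)
    refine h1.trans (h3.trans ?_)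
    have hyr : (y : ℝ) = (N : ℝ) ^ 4 := by rw [hy]; push_cast; ring
    rw [hyr]
    have h4 : (N : ℝ) * ((N + 1) * (2 * N)) * ((X : ℝ) / (N : ℝ) ^ 4) =
        (2 * (N + 1) / N) * (X / N) := by
      field_simp
    rw [h4]
    have h5 : 2 * ((N : ℝ) + 1) / N ≤ 3 := by
      rw [div_le_iff₀ (by linarith)]; linarith
    calc (2 * ((N : ℝ) + 1) / N) * (X / N) ≤ 3 * (X / N) :=
          mul_le_mul_of_nonneg_right h5 (by positivity)
      _ = 3 * X / N := by ring
  have hB2c : (B2.card : ℝ) * Real.log z ≤ 16 * X * Real.log N := by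
    have h1 : (B2.card : ℝ) * Real.log z ≤ ∑ d ∈ B2, lsm y d := by
      rw [← nsmul_eq_mul, ← Finset.sum_const]
      exact Finset.sum_le_sum fun d hd => (Finset.mem_filter.1 hd).2
    have h2 : ∑ d ∈ B2, lsm y d ≤ ∑ d ∈ Icc 1 X, lsm y d := by
      refine Finset.sum_le_sum_of_subset_of_nonneg (Finset.filter_subset _ _) fun d _ _ => ?_
      unfold lsm
      refine Finset.sum_nonneg fun p _ => ?_
      have := Real.log_natCast_nonneg p
      positivity
    have h3 := sum_lsm X y
    have h4 : Real.log y = 4 * Real.log N := by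
      rw [hy, Nat.cast_pow, Real.log_pow]; norm_num
    rw [h4] at h3
    calc _ ≤ _ := h1.trans (h2.trans h3)
      _ = 16 * X * Real.log N := by ring
  have hBc : (B.card : ℝ) ≤ B1.card + B2.card := by
    have := (Finset.card_le_card hsub).trans (Finset.card_union_le _ _)
    exact_mod_cast this
  have hlog2 : Real.log 2 ≤ Real.log N := Real.log_le_log (by norm_num) hNr
  have hlog3 : Real.log 3 ≤ 5 / 3 * Real.log 2 := by
    have h1 : Real.log ((3 : ℝ) ^ 3) ≤ Real.log ((2 : ℝ) ^ 5) :=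
      Real.log_le_log (by norm_num) (by norm_num)
    rw [Real.log_pow, Real.log_pow] at h1
    push_cast at h1
    linarith
  calc (B.card : ℝ) * Real.log z ≤ (B1.card + B2.card) * Real.log z :=
        mul_le_mul_of_nonneg_right hBc hlogz
    _ = B1.card * Real.log z + B2.card * Real.log z := by ring
    _ ≤ 3 * X / N * (N * Real.log 3) + 16 * X * Real.log N := by
        refine add_le_add ?_ hB2c
        exact mul_le_mul hB1c hzN hlogz (by positivity)
    _ = 3 * Real.log 3 * X + 16 * X * Real.log N := by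
        field_simp
    _ ≤ 21 * X * Real.log N := by
        have h1 : 3 * Real.log 3 ≤ 5 * Real.log N := by linarith
        have := mul_le_mul_of_nonneg_right h1 hXr
        linarith

end Pool.Agent.H33.NC.Q64
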