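import Pool.Agent.H33.NC.A

/-! Counting cycles. -/

set_option autoImplicit false

namespace Pool.Agent.H33.NC

open Finset

/-- `Z` is a cycle of `T_d` -/
def IsCycle (d : ℤ) (Z : Set ℤ) : Prop :=
  ∃ (x : ℤ) (p : ℕ), 1 ≤ p ∧ (T d)^[p] x = x ∧ Z = {z | ∃ i : ℕ, z = (T d)^[i] x}

/-- the cycles which meet `[-X, X]` -/
def Near (d : ℤ) (X : ℝ) : Set (Set ℤ) := {Z | IsCycle d Z ∧ ∃ z ∈ Z, |(z : ℝ)| ≤ X}

theorem orbit_eq {d x : ℤ} {p : ℕ} (hp : 1 ≤ p) (hx : (T d)^[p] x = x) (i : ℕ) :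
    (T d)^[p] ((T d)^[i] x) = (T d)^[i] x ∧
      {z | ∃ j : ℕ, z = (T d)^[j] x} = {z | ∃ j : ℕ, z = (T d)^[j] ((T d)^[i] x)} := by
  have h1 : (T d)^[p] ((T d)^[i] x) = (T d)^[i] x := by
    rw [← Function.iterate_add_apply, add_comm, Function.iterate_add_apply, hx]
  refine ⟨h1, Set.ext fun z => ⟨?_, ?_⟩⟩
  · rintro ⟨j, rfl⟩
    have h2 : ∀ k : ℕ, (T d)^[p * k] x = x := by
      intro k
      induction k with
      | zero => simp
      | succ k ih => rw [mul_add, mul_one, Function.iterate_add_apply, hx, ih]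
    refine ⟨p * i - i + j, ?_⟩
    rw [← Function.iterate_add_apply]
    have : i ≤ p * i := Nat.le_mul_of_pos_left i hp
    rw [show p * i - i + j + i = j + p * i by omega, Function.iterate_add_apply, h2]
  · rintro ⟨j, rfl⟩
    exact ⟨j + i, by rw [Function.iterate_add_apply]⟩

theorem IsCycle.of_mem {d : ℤ} {Z : Set ℤ} (h : IsCycle d Z) {z : ℤ} (hz : z ∈ Z) :
    ∃ p : ℕ, 1 ≤ p ∧ (T d)^[p] z = z ∧ Z = {w | ∃ i : ℕ, w = (T d)^[i] z} := by
  obtain ⟨x, p, hp, hx, rfl⟩ := h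
  obtain ⟨i, rfl⟩ := hz
  obtain ⟨h1, h2⟩ := orbit_eq hp hx i
  exact ⟨p, hp, h1, h2⟩

theorem IsCycle.eq_of_mem {d : ℤ} {Z W : Set ℤ} (h : IsCycle d Z) (h' : IsCycle d W) {z : ℤ} (hz : z ∈ Z)
    (hw : z ∈ W) : Z = W := by
  obtain ⟨p, -, -, e⟩ := h.of_mem hz
  obtain ⟨p', -, -, e'⟩ := h'.of_mem hw
  rw [e, e']

theorem IsCycle.iter {d : ℤ} {Z : Set ℤ} (h : IsCycle d Z) {z : ℤ} (hz : z ∈ Z) (i : ℕ) :
    (T d)^[i] z ∈ Z := by
  obtain ⟨p, -, -, e⟩ := h.of_mem hz
  rw [e]; exact ⟨i, rfl⟩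

theorem IsCycle.period {d : ℤ} {Z : Set ℤ} (h : IsCycle d Z) {z : ℤ} (hz : z ∈ Z) :
    0 < Function.minimalPeriod (T d) z := by
  obtain ⟨p, hp, h1, -⟩ := h.of_mem hz
  exact Function.IsPeriodicPt.minimalPeriod_pos hp h1

/-- disjoint sets with many elements in a finite set -/
theorem count_disjoint {d : ℤ} (A : Finset (Set ℤ)) (hA : ∀ Z ∈ A, IsCycle d Z) (S : Finset ℤ) {r : ℝ}
    (h : ∀ Z ∈ A, ∃ F : Finset ℤ, F ⊆ S ∧ (∀ z ∈ F, z ∈ Z) ∧ r ≤ #F) : r * #A ≤ #S := by
  classical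
  have h' : ∀ Z : Set ℤ, ∃ F : Finset ℤ, Z ∈ A → F ⊆ S ∧ (∀ z ∈ F, z ∈ Z) ∧ r ≤ #F := by
    intro Z
    by_cases hZ : Z ∈ A
    · obtain ⟨F, hF⟩ := h Z hZ
      exact ⟨F, fun _ => hF⟩
    · exact ⟨∅, fun h => (hZ h).elim⟩
  choose F hF using h'
  have h1 : #(A.biUnion F) = ∑ Z ∈ A, #(F Z) := by
    refine card_biUnion ?_
    intro Z hZ W hW hne
    rw [Function.onFun, disjoint_left]
    intro z hz hw
    exact hne ((hA Z hZ).eq_of_mem (hA W hW) ((hF Z hZ).2.1 z hz) ((hF W hW).2.1 z hw))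
  have h2 : #(A.biUnion F) ≤ #S := card_le_card (biUnion_subset.2 fun Z hZ => (hF Z hZ).1)
  calc r * #A = ∑ Z ∈ A, r := by rw [sum_const, nsmul_eq_mul, mul_comm]
    _ ≤ ∑ Z ∈ A, (#(F Z) : ℝ) := sum_le_sum fun Z hZ => (hF Z hZ).2.2
    _ = (#(A.biUnion F) : ℝ) := by rw [h1]; push_cast; rfl
    _ ≤ #S := by exact_mod_cast h2

/-- the integers of `[-R, R]` -/
noncomputable def box (R : ℝ) : Finset ℤ := Icc (-⌊R⌋) ⌊R⌋

theorem mem_box {R : ℝ} {x : ℤ} : x ∈ box R ↔ |(x : ℝ)| ≤ R := by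
  unfold box
  rw [mem_Icc, abs_le, Int.le_floor]
  constructor
  · rintro ⟨h1, h2⟩
    refine ⟨?_, h2⟩
    have h3 : -x ≤ ⌊R⌋ := by omega
    rw [Int.le_floor] at h3
    push_cast at h3
    linarith
  · rintro ⟨h1, h2⟩
    refine ⟨?_, h2⟩
    have h3 : -x ≤ ⌊R⌋ := by
      rw [Int.le_floor]; push_cast; linarith
    omega

theorem card_box {R : ℝ} (hR : 0 ≤ R) : (#(box R) : ℝ) ≤ 2 * R + 1 := by
  unfold box
  rw [Int.card_Icc]
  have h0 : 0 ≤ ⌊R⌋ := Int.floor_nonneg.2 hR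
  have h1 : ((⌊R⌋ : ℤ) : ℝ) ≤ R := Int.floor_le R
  have h2 : (((⌊R⌋ + 1 - -⌊R⌋).toNat : ℕ) : ℤ) = 2 * ⌊R⌋ + 1 := by omega
  have h3 : (((⌊R⌋ + 1 - -⌊R⌋).toNat : ℕ) : ℝ) = 2 * ⌊R⌋ + 1 := by exact_mod_cast h2
  rw [h3]; linarith

open Classical in
theorem visx_eq (d : ℤ) (R : ℝ) : ∀ (n : ℕ) (x : ℤ),
    visx d R n x = ∑ i ∈ range n, if |(((T d)^[i] x : ℤ) : ℝ)| ≤ R then 1 else 0
  | 0, _ => by simp [visx]
  | n + 1, x => by
      rw [sum_range_succ', visx, visx_eq d R n (T d x), add_comm]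
      simp only [Function.iterate_succ_apply, Function.iterate_zero, id]
      congr 1

theorem visx_add (d : ℤ) (R : ℝ) (a b : ℕ) (x : ℤ) :
    visx d R (a + b) x = visx d R a x + visx d R b ((T d)^[a] x) := by
  rw [visx_eq, visx_eq, visx_eq, sum_range_add]
  congr 1
  refine sum_congr rfl fun i _ => ?_
  rw [add_comm a i, Function.iterate_add_apply]

open Classical in
theorem visx_card (d : ℤ) (R : ℝ) (n : ℕ) (x : ℤ) :
    visx d R n x = #((range n).filter fun i => |(((T d)^[i] x : ℤ) : ℝ)| ≤ R) := by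
  rw [visx_eq, card_filter]

/-- the density of the visits -/
theorem visits_dense {d : ℤ} {R : ℝ} {n : ℕ} (hn : 20 ≤ n) {x : ℤ}
    (h : ∀ i : ℕ, |(((T d)^[i] x : ℤ) : ℝ)| ≤ R → n ≤ 10 * visx d R n ((T d)^[i] x)) :
    ∀ (L i : ℕ), |(((T d)^[i] x : ℤ) : ℝ)| ≤ R → L ≤ 20 * visx d R L ((T d)^[i] x) + n := by
  classical
  intro L
  induction L using Nat.strong_induction_on with
  | _ L ih =>
    intro i hi
    rcases le_or_gt L n with hL | hL
    · omega
    set z := (T d)^[i] x with hz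
    set F := (range n).filter fun j => |(((T d)^[j] z : ℤ) : ℝ)| ≤ R with hF
    have h0 : 0 ∈ F := by
      rw [hF, mem_filter]
      exact ⟨mem_range.2 (by omega), by simpa using hi⟩
    set q := F.max' ⟨0, h0⟩ with hq
    have hqF : q ∈ F := F.max'_mem _
    have hq1 : q < n := mem_range.1 (mem_filter.1 hqF).1
    have hq2 : |(((T d)^[q] z : ℤ) : ℝ)| ≤ R := (mem_filter.1 hqF).2
    have hcard : visx d R n z = #F := visx_card d R n z
    have hsplit : F ⊆ insert q ((range q).filter fun j => |(((T d)^[j] z : ℤ) : ℝ)| ≤ R) := by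
      intro j hj
      rw [mem_insert, mem_filter, mem_range]
      have hjq : j ≤ q := F.le_max' j hj
      rcases hjq.lt_or_eq with h1 | h1
      · exact Or.inr ⟨h1, (mem_filter.1 hj).2⟩
      · exact Or.inl h1
    have hc2 : #F ≤ visx d R q z + 1 := by
      rw [visx_card]
      exact (card_le_card hsplit).trans (card_insert_le _ _)
    have h3 := h i hi
    rw [← hz, hcard] at h3
    have hvq : visx d R q z ≤ q := by
      rw [visx_card]
      exact (card_filter_le _ _).trans (by simp)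
    have hq0 : 1 ≤ q := by omega
    have e1 : (T d)^[q] z = (T d)^[q + i] x := by rw [hz, Function.iterate_add_apply]
    have h4 := ih (L - q) (by omega) (q + i) (by rw [← e1]; exact hq2)
    rw [← e1] at h4
    have h5 : visx d R L z = visx d R q z + visx d R (L - q) ((T d)^[q] z) := by
      rw [← visx_add]; congr 1; omega
    omega

/-- short cycles -/
theorem short_points {d : ℤ} (hd : d % 2 = 1) (L : ℕ) (S : Finset ℤ)
    (hS : ∀ x ∈ S, 0 < Function.minimalPeriod (T d) x ∧ Function.minimalPeriod (T d) x < L) :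
    #S ≤ 2 ^ L := by
  have h1 : #S ≤ #(range (2 ^ L)) := by
    refine card_le_card_of_injOn (fun x => 2 ^ (Function.minimalPeriod (T d) x) +
      code d (Function.minimalPeriod (T d) x) x) ?_ ?_
    · intro x hx
      have hx' : x ∈ S := hx
      obtain ⟨h0, h2⟩ := hS x hx'
      simp only [coe_range, Set.mem_Iio]
      have h3 := code_lt d (Function.minimalPeriod (T d) x) x
      calc _ < 2 ^ (Function.minimalPeriod (T d) x) + 2 ^ (Function.minimalPeriod (T d) x) := by omega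
        _ = 2 ^ (Function.minimalPeriod (T d) x + 1) := by rw [pow_succ]; ring
        _ ≤ 2 ^ L := Nat.pow_le_pow_right (by norm_num) (by omega)
    · intro x hx y hy hxy
      have hx' : x ∈ S := hx
      have hy' : y ∈ S := hy
      simp only at hxy
      set l := Function.minimalPeriod (T d) x with hl
      set m := Function.minimalPeriod (T d) y with hm
      have h3 := code_lt d l x
      have h4 := code_lt d m y
      have hlm : l = m := by
        rcases lt_trichotomy l m with h | h | h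
        · exfalso
          have : 2 ^ (l + 1) ≤ 2 ^ m := Nat.pow_le_pow_right (by norm_num) h
          rw [pow_succ] at this
          omega
        · exact h
        · exfalso
          have : 2 ^ (m + 1) ≤ 2 ^ l := Nat.pow_le_pow_right (by norm_num) h
          rw [pow_succ] at this
          omega
      have hc : code d l x = code d l y := by
        rw [← hlm] at hxy h4
        omega
      refine eq_of_code hd (hS x hx').1 hc (Function.isPeriodicPt_minimalPeriod _ _) ?_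
      change (T d)^[l] y = y
      rw [hlm]
      exact Function.isPeriodicPt_minimalPeriod _ _
  simpa using h1

/-- **The number of the cycles at scale `y`.** -/
theorem count_cycles {d : ℤ} (hd : d % 2 = 1) {y : ℝ} (hy : |(d : ℝ)| ≤ y) {n : ℕ} (hn : 20 ≤ n)
    (hny : (2 : ℝ) ^ n ≤ y) {L : ℕ} (hL : 2 * n ≤ L) (A : Finset (Set ℤ)) (hA : ∀ Z ∈ A, IsCycle d Z)
    (hm : ∀ Z ∈ A, ∃ z ∈ Z, |(z : ℝ)| ≤ 100 * y ∧ L ≤ Function.minimalPeriod (T d) z) (S : Finset ℤ)
    (hS : ∀ Z ∈ A, ∀ z ∈ Z, |(z : ℝ)| ≤ 100 * y → z ∈ S) :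
    (#A : ℝ) ≤ 2010 * y * (0.992 : ℝ) ^ n + 40 * #S / L := by
  classical
  have hL0 : (0 : ℝ) < L := by
    have : 0 < L := by omega
    exact_mod_cast this
  set Bad : ℤ → Prop := fun z => |(z : ℝ)| ≤ 100 * y ∧ 10 * visx d (100 * y) n z < n with hBad
  set A1 := A.filter (fun Z => ∃ z ∈ Z, Bad z) with hA1
  set A2 := A.filter (fun Z => ¬ ∃ z ∈ Z, Bad z) with hA2
  have hsplit : (#A : ℝ) = #A1 + #A2 := by
    have := card_filter_add_card_filter_not (s := A) (fun Z => ∃ z ∈ Z, Bad z)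
    rw [hA1, hA2]
    exact_mod_cast this.symm
  have h1 : (#A1 : ℝ) ≤ 2010 * y * (0.992 : ℝ) ^ n := by
    have h2 := count_disjoint (d := d) A1 (fun Z hZ => hA Z (mem_filter.1 hZ).1)
      ((box (100 * y)).filter (fun z => Bad z)) (r := 1) (by
        intro Z hZ
        obtain ⟨z, hz, hb⟩ := (mem_filter.1 hZ).2
        refine ⟨{z}, ?_, ?_, by simp⟩
        · rw [singleton_subset_iff, mem_filter, mem_box]
          exact ⟨hb.1, hb⟩
        · intro w hw
          rw [mem_singleton] at hw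
          rw [hw]; exact hz)
    rw [one_mul] at h2
    exact h2.trans (bad_points hd hy hny _ fun x hx => (mem_filter.1 hx).2)
  have h2 : (#A2 : ℝ) ≤ 40 * #S / L := by
    have h3 := count_disjoint (d := d) A2 (fun Z hZ => hA Z (mem_filter.1 hZ).1) S (r := L / 40) (by
        intro Z hZ
        obtain ⟨hZA, hnb⟩ := mem_filter.1 hZ
        obtain ⟨x, hx, hx1, hx2⟩ := hm Z hZA
        have hcy := hA Z hZA
        refine ⟨((range L).filter fun i => |(((T d)^[i] x : ℤ) : ℝ)| ≤ 100 * y).image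
          (fun i => (T d)^[i] x), ?_, ?_, ?_⟩
        · intro z hz
          obtain ⟨i, hi, rfl⟩ := mem_image.1 hz
          exact hS Z hZA _ (hcy.iter hx i) (mem_filter.1 hi).2
        · intro z hz
          obtain ⟨i, hi, rfl⟩ := mem_image.1 hz
          exact hcy.iter hx i
        · rw [card_image_of_injOn]
          · rw [← visx_card]
            have h4 := visits_dense (d := d) (R := 100 * y) hn (x := x) (by
              intro i hi
              by_contra hcon
              push Not at hcon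
              exact hnb ⟨_, hcy.iter hx i, hi, hcon⟩) L 0 (by simpa using hx1)
            simp only [Function.iterate_zero, id] at h4
            have h5 : L ≤ 40 * visx d (100 * y) L x := by omega
            have h6 : (L : ℝ) ≤ 40 * (visx d (100 * y) L x : ℝ) := by exact_mod_cast h5
            linarith
          · intro i hi j hj hij
            have hi' := (mem_filter.1 (mem_coe.1 hi)).1
            have hj' := (mem_filter.1 (mem_coe.1 hj)).1
            rw [mem_range] at hi' hj'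
            exact Function.iterate_injOn_Iio_minimalPeriod (Set.mem_Iio.2 (hi'.trans_le hx2))
              (Set.mem_Iio.2 (hj'.trans_le hx2)) hij)
    rw [le_div_iff₀ hL0]
    nlinarith
  rw [hsplit]
  exact add_le_add h1 h2

/-- all cycles at scale `y` -/
theorem count_cycles' {d : ℤ} (hd : d % 2 = 1) {y : ℝ} (hy : |(d : ℝ)| ≤ y) {n : ℕ} (hn : 20 ≤ n)
    (hny : (2 : ℝ) ^ n ≤ y) (A : Finset (Set ℤ)) (hA : ∀ Z ∈ A, IsCycle d Z)
    (hm : ∀ Z ∈ A, ∃ z ∈ Z, |(z : ℝ)| ≤ 100 * y) (S : Finset ℤ)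
    (hS : ∀ Z ∈ A, ∀ z ∈ Z, |(z : ℝ)| ≤ 100 * y → z ∈ S) :
    (#A : ℝ) ≤ 4 ^ n + 2010 * y * (0.992 : ℝ) ^ n + 20 * #S / n := by
  classical
  set P : Set ℤ → Prop := fun Z => ∃ z ∈ Z, |(z : ℝ)| ≤ 100 * y ∧
    2 * n ≤ Function.minimalPeriod (T d) z with hP
  have hsplit : (#A : ℝ) = #(A.filter P) + #(A.filter fun Z => ¬ P Z) := by
    have := card_filter_add_card_filter_not (s := A) P
    exact_mod_cast this.symm
  have h1 := count_cycles hd hy hn hny (L := 2 * n) le_rfl (A.filter P)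
    (fun Z hZ => hA Z (mem_filter.1 hZ).1) (fun Z hZ => (mem_filter.1 hZ).2) S
    (fun Z hZ => hS Z (mem_filter.1 hZ).1)
  have h2 : #(A.filter fun Z => ¬ P Z) ≤ 2 ^ (2 * n) := by
    have hex : ∀ Z : Set ℤ, ∃ z : ℤ, Z ∈ A.filter (fun Z => ¬ P Z) → z ∈ Z ∧ |(z : ℝ)| ≤ 100 * y ∧
        Function.minimalPeriod (T d) z < 2 * n := by
      intro Z
      by_cases hZ : Z ∈ A.filter (fun Z => ¬ P Z)
      · obtain ⟨hZA, hnP⟩ := mem_filter.1 hZ
        obtain ⟨z, hz, hz1⟩ := hm Z hZA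
        refine ⟨z, fun _ => ⟨hz, hz1, ?_⟩⟩
        by_contra hcon
        push Not at hcon
        exact hnP ⟨z, hz, hz1, hcon⟩
      · exact ⟨0, fun h => (hZ h).elim⟩
    choose f hf using hex
    rw [← card_image_of_injOn (s := A.filter fun Z => ¬ P Z) (f := f)]
    · refine short_points hd (2 * n) _ ?_
      intro x hx
      obtain ⟨Z, hZ, rfl⟩ := mem_image.1 hx
      obtain ⟨h3, h4, h5⟩ := hf Z hZ
      exact ⟨(hA Z (mem_filter.1 hZ).1).period h3, h5⟩
    · intro Z hZ W hW hZW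
      have hZ' := mem_coe.1 hZ
      have hW' := mem_coe.1 hW
      have h3 := (hf Z hZ').1
      have h4 := (hf W hW').1
      change f Z = f W at hZW
      rw [← hZW] at h4
      exact (hA Z (mem_filter.1 hZ').1).eq_of_mem (hA W (mem_filter.1 hW').1) h3 h4
  have h3 : (#(A.filter fun Z => ¬ P Z) : ℝ) ≤ 4 ^ n := by
    have : (#(A.filter fun Z => ¬ P Z) : ℝ) ≤ 2 ^ (2 * n) := by exact_mod_cast h2
    rw [pow_mul] at this
    norm_num at this
    exact this
  have h4 : 40 * (#S : ℝ) / ((2 * n : ℕ) : ℝ) = 20 * #S / n := by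
    have : (n : ℝ) ≠ 0 := by
      have : n ≠ 0 := by omega
      exact_mod_cast this
    push_cast
    field_simp
    ring
  rw [h4] at h1
  rw [hsplit]
  linarith

end Pool.Agent.H33.NC
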