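import Pool.Agent.H33.NC.B
import Pool.Agent.H33.PD.A

/-! The upper bound for the number of the cycles which meet `[-X, X]`. -/

set_option autoImplicit false

namespace Pool.Agent.H33.NC

open Finset

theorem near_finite {d : ℤ} (X : ℝ) : (Near d X).Finite := by
  refine ((box X).finite_toSet.image (fun z => {w | ∃ i : ℕ, w = (T d)^[i] z})).subset ?_
  rintro Z ⟨hZ, z, hz, hzX⟩
  obtain ⟨p, -, -, e⟩ := hZ.of_mem hz
  exact ⟨z, mem_coe.2 (mem_box.2 hzX), e.symm⟩

theorem log_le_sqrt {D : ℝ} (hD : 1 ≤ D) : Real.log (D + 1) ≤ 2 * Real.sqrt D := by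
  have h1 : Real.log (D + 1) = 2 * Real.log (Real.sqrt (D + 1)) := by
    rw [Real.log_sqrt (by linarith)]; ring
  have h2 : Real.log (Real.sqrt (D + 1)) ≤ Real.sqrt (D + 1) - 1 :=
    Real.log_le_sub_one_of_pos (Real.sqrt_pos.2 (by linarith))
  have h3 : Real.sqrt (D + 1) ≤ Real.sqrt D + 1 := by
    rw [Real.sqrt_le_left (by positivity)]
    nlinarith [Real.sq_sqrt (show (0 : ℝ) ≤ D by linarith), Real.sqrt_nonneg D]
  linarith

theorem log_le_small {D : ℝ} (hD : 1 ≤ D) : Real.log (D + 1) ≤ 1000 * D ^ (0.002 : ℝ) := by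
  have h1 := Real.log_le_rpow_div (show (0 : ℝ) ≤ D + 1 by linarith) (show (0 : ℝ) < 0.002 by norm_num)
  have h2 : (D + 1) ^ (0.002 : ℝ) ≤ 2 * D ^ (0.002 : ℝ) := by
    calc (D + 1) ^ (0.002 : ℝ) ≤ (2 * D) ^ (0.002 : ℝ) :=
          Real.rpow_le_rpow (by linarith) (by linarith) (by norm_num)
      _ = 2 ^ (0.002 : ℝ) * D ^ (0.002 : ℝ) := Real.mul_rpow (by norm_num) (by linarith)
      _ ≤ 2 * D ^ (0.002 : ℝ) := by
          refine mul_le_mul_of_nonneg_right ?_ (by positivity)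
          calc (2 : ℝ) ^ (0.002 : ℝ) ≤ 2 ^ (1 : ℝ) :=
                Real.rpow_le_rpow_of_exponent_le (by norm_num) (by norm_num)
            _ = 2 := by norm_num
  calc _ ≤ (D + 1) ^ (0.002 : ℝ) / 0.002 := h1
    _ ≤ (2 * D ^ (0.002 : ℝ)) / 0.002 := by gcongr
    _ = 1000 * D ^ (0.002 : ℝ) := by ring

theorem pow992 (n : ℕ) {y : ℝ} (hy : 0 < y) (h : y < 16 ^ (n + 1)) :
    (0.992 : ℝ) ^ n ≤ 2 * y ^ (-0.002 : ℝ) := by
  have h1 : (0.992 : ℝ) ≤ 16 ^ (-0.002 : ℝ) := by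
    rw [Real.rpow_neg (by norm_num), ← one_div, le_div_iff₀ (by positivity)]
    have h2 : (16 : ℝ) ^ (0.002 : ℝ) ≤ 125 / 124 := by
      have h3 : (16 : ℝ) ≤ (125 / 124) ^ (500 : ℕ) := by
        have h4 : (2 : ℝ) ≤ (1 + 1 / 124) ^ 124 := by
          have := one_add_mul_le_pow (show (-2 : ℝ) ≤ 1 / 124 by norm_num) 124
          norm_num at this ⊢
        calc (16 : ℝ) = 2 ^ 4 := by norm_num
          _ ≤ ((1 + 1 / 124) ^ 124) ^ 4 := pow_le_pow_left₀ (by norm_num) h4 4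
          _ = (125 / 124) ^ 496 := by rw [← pow_mul]; norm_num
          _ ≤ (125 / 124) ^ 500 := pow_le_pow_right₀ (by norm_num) (by norm_num)
      calc (16 : ℝ) ^ (0.002 : ℝ) ≤ ((125 / 124) ^ (500 : ℕ)) ^ (0.002 : ℝ) :=
            Real.rpow_le_rpow (by norm_num) h3 (by norm_num)
        _ = (125 / 124) := by
            rw [← Real.rpow_natCast, ← Real.rpow_mul (by norm_num)]
            norm_num
    calc (0.992 : ℝ) * 16 ^ (0.002 : ℝ) ≤ 0.992 * (125 / 124) := by gcongr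
      _ = 1 := by norm_num
  calc (0.992 : ℝ) ^ n ≤ (16 ^ (-0.002 : ℝ)) ^ n := pow_le_pow_left₀ (by norm_num) h1 n
    _ = ((16 : ℝ) ^ n) ^ (-0.002 : ℝ) := by
        rw [← Real.rpow_natCast, ← Real.rpow_mul (by norm_num), mul_comm, Real.rpow_mul (by norm_num),
          Real.rpow_natCast]
    _ ≤ (y / 16) ^ (-0.002 : ℝ) := by
        refine Real.rpow_le_rpow_of_nonpos (by positivity) ?_ (by norm_num)
        rw [pow_succ] at h
        linarith
    _ = y ^ (-0.002 : ℝ) * 16 ^ (0.002 : ℝ) := by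
        rw [Real.div_rpow hy.le (by norm_num), Real.rpow_neg (show (0 : ℝ) ≤ 16 by norm_num), div_inv_eq_mul]
    _ ≤ y ^ (-0.002 : ℝ) * 2 := by
        refine mul_le_mul_of_nonneg_left ?_ (by positivity)
        calc (16 : ℝ) ^ (0.002 : ℝ) ≤ 16 ^ (1 / 4 : ℝ) :=
              Real.rpow_le_rpow_of_exponent_le (by norm_num) (by norm_num)
          _ = 2 := by
              rw [show (16 : ℝ) = 2 ^ (4 : ℝ) by norm_num, ← Real.rpow_mul (by norm_num)]
              norm_num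
    _ = 2 * y ^ (-0.002 : ℝ) := by ring

/-- the number of the cycles at one scale -/
theorem scale (C1 : ℝ) (hC1 : 0 < C1) : ∃ C0 : ℝ, 0 < C0 ∧ ∀ d : ℤ, d % 2 = 1 → ∀ y : ℝ, |(d : ℝ)| ≤ y →
    ∀ (A : Finset (Set ℤ)) (S : Finset ℤ), (∀ Z ∈ A, IsCycle d Z) →
    (∀ Z ∈ A, ∃ z ∈ Z, |(z : ℝ)| ≤ 100 * y) → (∀ Z ∈ A, ∀ z ∈ Z, |(z : ℝ)| ≤ 100 * y → z ∈ S) →
    (#S : ℝ) ≤ C1 * y * (|(d : ℝ)| / y) ^ (0.002 : ℝ) →
    (#A : ℝ) ≤ C0 * (|(d : ℝ)| / Real.log (|(d : ℝ)| + 1)) * (y / |(d : ℝ)|) ^ (0.998 : ℝ) := by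
  refine ⟨201 * 16 ^ 20 + 2 + 4020000 + 80 * C1, by positivity, ?_⟩
  intro d hd y hy A S hA hm hS hcard
  set D : ℝ := |(d : ℝ)| with hDdef
  have hD : 1 ≤ D := by
    have : d ≠ 0 := by rintro rfl; simp at hd
    have h1 : (1 : ℤ) ≤ |d| := Int.one_le_abs this
    rw [hDdef]; exact_mod_cast h1
  have hD0 : 0 < D := by linarith
  have hy1 : 1 ≤ y := hD.trans hy
  have hy0 : 0 < y := by linarith
  have hlog0 : 0 < Real.log (D + 1) := Real.log_pos (by linarith)
  have hyD : 1 ≤ y / D := (one_le_div hD0).2 hy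
  have hyD1 : 1 ≤ (y / D) ^ (0.998 : ℝ) := Real.one_le_rpow hyD (by norm_num)
  set B : ℝ := D / Real.log (D + 1) * (y / D) ^ (0.998 : ℝ) with hB
  have hDlog : 1 ≤ D / Real.log (D + 1) := by
    rw [one_le_div hlog0]
    have := Real.log_le_sub_one_of_pos (show 0 < D + 1 by linarith)
    linarith
  have hB1 : 1 ≤ B := by
    rw [hB]
    exact one_le_mul_of_one_le_of_one_le hDlog hyD1
  rcases lt_or_ge y (16 ^ 20) with hsmall | hlarge
  · -- the trivial bound
    have h1 := count_disjoint (d := d) A hA (box (100 * y)) (r := 1) (by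
      intro Z hZ
      obtain ⟨z, hz, hz1⟩ := hm Z hZ
      refine ⟨{z}, ?_, ?_, by simp⟩
      · rw [singleton_subset_iff, mem_box]; exact hz1
      · intro w hw
        rw [mem_singleton] at hw
        rw [hw]; exact hz)
    rw [one_mul] at h1
    have h2 := card_box (R := 100 * y) (by positivity)
    have h3 : (#A : ℝ) ≤ 201 * 16 ^ 20 := by linarith
    have h4 : (201 * 16 ^ 20 : ℝ) ≤ 201 * 16 ^ 20 + 2 + 4020000 + 80 * C1 := by linarith
    have h5 : (0 : ℝ) ≤ 201 * 16 ^ 20 + 2 + 4020000 + 80 * C1 := by positivity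
    calc (#A : ℝ) ≤ (201 * 16 ^ 20 + 2 + 4020000 + 80 * C1) * 1 := by linarith
      _ ≤ (201 * 16 ^ 20 + 2 + 4020000 + 80 * C1) * B := mul_le_mul_of_nonneg_left hB1 h5
      _ = _ := by rw [hB]; ring
  -- the choice of `n`
  obtain ⟨n, hn1, hn2⟩ : ∃ n : ℕ, (16 : ℝ) ^ n ≤ y ∧ y < 16 ^ (n + 1) :=
    exists_nat_pow_near hy1 (by norm_num)
  have hn : 20 ≤ n := by
    by_contra hcon
    push Not at hcon
    have : (16 : ℝ) ^ (n + 1) ≤ 16 ^ 20 := pow_le_pow_right₀ (by norm_num) (by omega)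
    linarith
  have hn0 : (0 : ℝ) < n := by
    have : 0 < n := by omega
    exact_mod_cast this
  have h2n : (2 : ℝ) ^ n ≤ y :=
    (pow_le_pow_left₀ (by norm_num) (by norm_num) n).trans hn1
  have hmain := count_cycles' hd hy hn h2n A hA hm S hS
  -- first term
  have t1 : (4 : ℝ) ^ n ≤ 2 * B := by
    have h1 : (4 : ℝ) ^ n ≤ Real.sqrt y := by
      rw [Real.le_sqrt' (by positivity)]
      calc ((4 : ℝ) ^ n) ^ 2 = 16 ^ n := by rw [← pow_mul, mul_comm, pow_mul]; norm_num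
        _ ≤ y := hn1
    have h2 : Real.sqrt y = Real.sqrt D * Real.sqrt (y / D) := by
      rw [← Real.sqrt_mul hD0.le]
      congr 1
      field_simp
    have h3 : Real.sqrt (y / D) ≤ (y / D) ^ (0.998 : ℝ) := by
      rw [Real.sqrt_eq_rpow]
      exact Real.rpow_le_rpow_of_exponent_le hyD (by norm_num)
    have h4 : Real.sqrt D ≤ 2 * (D / Real.log (D + 1)) := by
      rw [← mul_div_assoc, le_div_iff₀ hlog0]
      have := log_le_sqrt hD
      have h5 : Real.sqrt D * Real.sqrt D = D := Real.mul_self_sqrt hD0.le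
      nlinarith [Real.sqrt_nonneg D]
    calc (4 : ℝ) ^ n ≤ Real.sqrt D * Real.sqrt (y / D) := h1.trans h2.le
      _ ≤ (2 * (D / Real.log (D + 1))) * (y / D) ^ (0.998 : ℝ) :=
          mul_le_mul h4 h3 (Real.sqrt_nonneg _) (by positivity)
      _ = 2 * B := by rw [hB]; ring
  -- second term
  have t2 : 2010 * y * (0.992 : ℝ) ^ n ≤ 4020000 * B := by
    have h1 := pow992 n hy0 hn2
    have h2 : y * y ^ (-0.002 : ℝ) = y ^ (0.998 : ℝ) := by
      nth_rewrite 1 [← Real.rpow_one y]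
      rw [← Real.rpow_add hy0]; norm_num
    have h3 : y ^ (0.998 : ℝ) = D ^ (0.998 : ℝ) * (y / D) ^ (0.998 : ℝ) := by
      rw [← Real.mul_rpow hD0.le (by positivity)]
      congr 1
      field_simp
    have h4 : D ^ (0.998 : ℝ) ≤ 1000 * (D / Real.log (D + 1)) := by
      rw [← mul_div_assoc, le_div_iff₀ hlog0]
      have h5 := log_le_small hD
      have h6 : D ^ (0.998 : ℝ) * D ^ (0.002 : ℝ) = D := by
        rw [← Real.rpow_add hD0]; norm_num
      have h7 : 0 ≤ D ^ (0.998 : ℝ) := by positivity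
      nlinarith
    calc 2010 * y * (0.992 : ℝ) ^ n ≤ 2010 * y * (2 * y ^ (-0.002 : ℝ)) := by gcongr
      _ = 4020 * (y * y ^ (-0.002 : ℝ)) := by ring
      _ = 4020 * (D ^ (0.998 : ℝ) * (y / D) ^ (0.998 : ℝ)) := by rw [h2, h3]
      _ ≤ 4020 * ((1000 * (D / Real.log (D + 1))) * (y / D) ^ (0.998 : ℝ)) := by gcongr
      _ = 4020000 * B := by rw [hB]; ring
  -- third term
  have t3 : 20 * (#S : ℝ) / n ≤ 80 * C1 * B := by
    have h1 : y * (D / y) ^ (0.002 : ℝ) = D * (y / D) ^ (0.998 : ℝ) := by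
      have h2 : D / y = (y / D)⁻¹ := by rw [inv_div]
      rw [h2, Real.inv_rpow (by positivity), ← Real.rpow_neg (by positivity)]
      have h3 : y = D * (y / D) := by field_simp
      have h4 : (y / D) * (y / D) ^ (-0.002 : ℝ) = (y / D) ^ (0.998 : ℝ) := by
        nth_rewrite 1 [← Real.rpow_one (y / D)]
        rw [← Real.rpow_add (by positivity)]; norm_num
      calc y * (y / D) ^ (-0.002 : ℝ) = (D * (y / D)) * (y / D) ^ (-0.002 : ℝ) := by rw [← h3]
        _ = D * ((y / D) * (y / D) ^ (-0.002 : ℝ)) := by ring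
        _ = _ := by rw [h4]
    have h5 : Real.log (D + 1) ≤ 4 * n := by
      have h6 : Real.log (D + 1) ≤ Real.log (2 * y) :=
        Real.log_le_log (by linarith) (by linarith)
      have h7 : Real.log (2 * y) ≤ Real.log (2 * 16 ^ (n + 1)) :=
        Real.log_le_log (by positivity) (by linarith)
      have h8 : Real.log (2 * 16 ^ (n + 1)) = (4 * n + 5) * Real.log 2 := by
        rw [show (2 : ℝ) * 16 ^ (n + 1) = 2 ^ (4 * n + 5) by
          rw [show (16 : ℝ) = 2 ^ 4 by norm_num, ← pow_mul, ← pow_succ']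
          congr 1, Real.log_pow]
        push_cast; ring
      have h9 : Real.log 2 < 0.7 := by linarith [Real.log_two_lt_d9]
      have h10 : (20 : ℝ) ≤ n := by exact_mod_cast hn
      nlinarith
    have h6 : (#S : ℝ) ≤ C1 * (D * (y / D) ^ (0.998 : ℝ)) := by
      rw [← h1]; linarith
    rw [div_le_iff₀ hn0]
    have h7 : D * (y / D) ^ (0.998 : ℝ) = B * Real.log (D + 1) := by
      rw [hB]; field_simp
    rw [h7] at h6
    have h8 : B * Real.log (D + 1) ≤ B * (4 * n) := mul_le_mul_of_nonneg_left h5 (by linarith)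
    nlinarith
  have hfin : (#A : ℝ) ≤ (2 + 4020000 + 80 * C1) * B := by linarith
  calc (#A : ℝ) ≤ (2 + 4020000 + 80 * C1) * B := hfin
    _ ≤ (201 * 16 ^ 20 + 2 + 4020000 + 80 * C1) * B := by
        refine mul_le_mul_of_nonneg_right ?_ (by linarith)
        have : (0 : ℝ) ≤ 201 * 16 ^ 20 := by positivity
        linarith
    _ = _ := by rw [hB]; ring

/-- **The number of the cycles which meet `[-X, X]`.** -/
theorem upper : ∃ C : ℝ, 0 < C ∧ ∀ d : ℤ, d % 2 = 1 → ¬ (3 : ℤ) ∣ d → ∀ X : ℝ, |(d : ℝ)| ≤ X →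
    (Near d X).Finite ∧ ((Near d X).ncard : ℝ) ≤
      C * (|(d : ℝ)| / Real.log (|(d : ℝ)| + 1)) * (X / |(d : ℝ)|) ^ (0.998 : ℝ) := by
  classical
  obtain ⟨C2, hC2, hall⟩ := Pool.Agent.H33.PD.count_all (c := 0.002) (by norm_num) (by
    have := Pool.Agent.H319R2.beta_lt
    linarith)
  obtain ⟨C0, hC0, hsc⟩ := scale (201 + 100 * C2) (by positivity)
  refine ⟨8 * C0, by positivity, ?_⟩
  intro d hd hd3 X hX
  refine ⟨near_finite X, ?_⟩
  set D : ℝ := |(d : ℝ)| with hDdef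
  have hD : 1 ≤ D := by
    have : d ≠ 0 := by rintro rfl; simp at hd
    have h1 : (1 : ℤ) ≤ |d| := Int.one_le_abs this
    rw [hDdef]; exact_mod_cast h1
  have hD0 : 0 < D := by linarith
  have hlog0 : 0 < Real.log (D + 1) := Real.log_pos (by linarith)
  set E : ℝ := D / Real.log (D + 1) with hE
  have hE0 : 0 < E := by positivity
  have h2pos : ∀ k : ℕ, (1 : ℝ) ≤ 2 ^ k := fun k => one_le_pow₀ (by norm_num)
  -- the dyadic claim
  have claim : ∀ k : ℕ, ((Near d (2 ^ k * D)).ncard : ℝ) ≤ 4 * C0 * E * ((2 : ℝ) ^ (0.998 : ℝ)) ^ k := by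
    have htau : (1.5 : ℝ) ≤ 2 ^ (0.998 : ℝ) := by
      have h1 : (1.5 : ℝ) ≤ 2 ^ (3 / 5 : ℝ) := by
        have h2 : (1.5 : ℝ) ^ (5 : ℕ) ≤ (2 ^ (3 / 5 : ℝ)) ^ (5 : ℕ) := by
          rw [← Real.rpow_natCast (2 ^ (3 / 5 : ℝ)) 5, ← Real.rpow_mul (by norm_num)]
          norm_num
        exact le_of_pow_le_pow_left₀ (by norm_num) (by positivity) h2
      exact h1.trans (Real.rpow_le_rpow_of_exponent_le (by norm_num) (by norm_num))
    have htk : ∀ k : ℕ, ((2 : ℝ) ^ k) ^ (0.998 : ℝ) = ((2 : ℝ) ^ (0.998 : ℝ)) ^ k := by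
      intro k
      rw [← Real.rpow_natCast, ← Real.rpow_mul (by norm_num), mul_comm, Real.rpow_mul (by norm_num),
        Real.rpow_natCast]
    intro k
    induction k with
    | zero =>
      have h1 := hsc d hd D le_rfl (near_finite (d := d) D).toFinset (box (100 * D))
        (fun Z hZ => ((near_finite (d := d) D).mem_toFinset.1 hZ).1)
        (fun Z hZ => by
          obtain ⟨-, z, hz, hz1⟩ := (near_finite (d := d) D).mem_toFinset.1 hZ
          exact ⟨z, hz, by linarith⟩)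
        (fun Z hZ z hz hz1 => mem_box.2 hz1) (by
          have h2 := card_box (R := 100 * D) (by positivity)
          rw [← hDdef, div_self hD0.ne', Real.one_rpow]
          nlinarith)
      rw [← hDdef, div_self hD0.ne', Real.one_rpow, mul_one] at h1
      rw [pow_zero, one_mul, pow_zero, mul_one, Set.ncard_eq_toFinset_card _ (near_finite (d := d) D)]
      calc _ ≤ C0 * E := h1
        _ ≤ 4 * C0 * E := by nlinarith
    | succ k ih =>
      set y : ℝ := 2 ^ k * D with hydef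
      have hy : D ≤ y := by rw [hydef]; nlinarith [h2pos k]
      have hy0 : 0 < y := by linarith
      have e1 : (2 : ℝ) ^ (k + 1) * D = 2 * y := by rw [hydef, pow_succ]; ring
      rw [e1]
      have hfin := near_finite (d := d) (2 * y)
      set A : Finset (Set ℤ) := hfin.toFinset.filter (fun Z => Z ∉ Near d y) with hAdef
      have hAc : ∀ Z ∈ A, IsCycle d Z := fun Z hZ =>
        (hfin.mem_toFinset.1 (mem_filter.1 hZ).1).1
      have hmem : ∀ x : ℤ, |(x : ℝ)| ≤ 100 * y ∧ Pool.Agent.H33.PD.Sd d y x →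
          x ∈ (box (100 * y)).filter (fun x => Pool.Agent.H33.PD.Sd d y x) := by
        intro x hx
        rw [mem_filter, mem_box]; exact hx
      have h1 := hsc d hd y hy A ((box (100 * y)).filter (fun x => Pool.Agent.H33.PD.Sd d y x)) hAc
        (fun Z hZ => by
          obtain ⟨-, z, hz, hz1⟩ := hfin.mem_toFinset.1 (mem_filter.1 hZ).1
          exact ⟨z, hz, by linarith⟩)
        (fun Z hZ z hz hz1 => by
          refine hmem z ⟨hz1, ?_⟩
          intro i
          by_contra hcon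
          push Not at hcon
          exact (mem_filter.1 hZ).2 ⟨hAc Z hZ, _, (hAc Z hZ).iter hz i, hcon⟩) (by
          have h2 := hall d hd hd3 (100 * y) y (by linarith) hy0
          have h3 : ({x : ℤ | |(x : ℝ)| ≤ 100 * y ∧ Pool.Agent.H33.PD.Sd d y x}.ncard : ℝ) =
              #((box (100 * y)).filter (fun x => Pool.Agent.H33.PD.Sd d y x)) := by
            rw [← Set.ncard_coe_finset]
            congr 2
            ext x
            simp only [Set.mem_setOf_eq, coe_filter, mem_box]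
          rw [h3] at h2
          refine h2.trans ?_
          have h4 : 0 ≤ (D / y) ^ (0.002 : ℝ) := by positivity
          rw [← hDdef]
          nlinarith [mul_nonneg hy0.le h4])
      have h2 : ((Near d (2 * y)).ncard : ℝ) ≤ (Near d y).ncard + #A := by
        have h3 : Near d (2 * y) ⊆ Near d y ∪ (A : Set (Set ℤ)) := by
          intro Z hZ
          by_cases h : Z ∈ Near d y
          · exact Or.inl h
          · exact Or.inr (mem_coe.2 (mem_filter.2 ⟨hfin.mem_toFinset.2 hZ, h⟩))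
        have h4 := Set.ncard_le_ncard h3 ((near_finite y).union (finite_toSet A))
        have h5 := h4.trans (Set.ncard_union_le _ _)
        rw [Set.ncard_coe_finset] at h5
        exact_mod_cast h5
      have e2 : y / D = 2 ^ k := by rw [hydef]; field_simp
      rw [← hDdef, e2, htk k] at h1
      have h3 : 0 < ((2 : ℝ) ^ (0.998 : ℝ)) ^ k := by positivity
      calc ((Near d (2 * y)).ncard : ℝ) ≤ 4 * C0 * E * ((2 : ℝ) ^ (0.998 : ℝ)) ^ k +
            C0 * E * ((2 : ℝ) ^ (0.998 : ℝ)) ^ k := h2.trans (add_le_add ih h1)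
        _ = 5 * (C0 * E * ((2 : ℝ) ^ (0.998 : ℝ)) ^ k) := by ring
        _ ≤ (4 * 1.5) * (C0 * E * ((2 : ℝ) ^ (0.998 : ℝ)) ^ k) := by
            refine mul_le_mul_of_nonneg_right (by norm_num) (by positivity)
        _ ≤ (4 * 2 ^ (0.998 : ℝ)) * (C0 * E * ((2 : ℝ) ^ (0.998 : ℝ)) ^ k) := by
            refine mul_le_mul_of_nonneg_right ?_ (by positivity)
            linarith
        _ = 4 * C0 * E * ((2 : ℝ) ^ (0.998 : ℝ)) ^ (k + 1) := by rw [pow_succ]; ring
  -- all `X`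
  have hXD : 1 ≤ X / D := (one_le_div hD0).2 hX
  obtain ⟨k, hk1, hk2⟩ : ∃ k : ℕ, (2 : ℝ) ^ k ≤ X / D ∧ X / D < 2 ^ (k + 1) :=
    exists_nat_pow_near hXD (by norm_num)
  have h1 := claim (k + 1)
  have h2 : ((Near d X).ncard : ℝ) ≤ (Near d (2 ^ (k + 1) * D)).ncard := by
    have h3 : Near d X ⊆ Near d (2 ^ (k + 1) * D) := by
      rintro Z ⟨hZ, z, hz, hz1⟩
      refine ⟨hZ, z, hz, hz1.trans ?_⟩
      rw [div_lt_iff₀ hD0] at hk2
      exact hk2.le
    exact_mod_cast Set.ncard_le_ncard h3 (near_finite _)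
  have h3 : ((2 : ℝ) ^ (0.998 : ℝ)) ^ (k + 1) ≤ 2 * (X / D) ^ (0.998 : ℝ) := by
    have e : ((2 : ℝ) ^ (0.998 : ℝ)) ^ (k + 1) = ((2 : ℝ) ^ (k + 1)) ^ (0.998 : ℝ) := by
      rw [← Real.rpow_natCast, ← Real.rpow_natCast, ← Real.rpow_mul (by norm_num),
        ← Real.rpow_mul (by norm_num), mul_comm]
    rw [e]
    calc ((2 : ℝ) ^ (k + 1)) ^ (0.998 : ℝ) ≤ (2 * (X / D)) ^ (0.998 : ℝ) := by
          refine Real.rpow_le_rpow (by positivity) ?_ (by norm_num)
          rw [pow_succ]; linarith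
      _ = 2 ^ (0.998 : ℝ) * (X / D) ^ (0.998 : ℝ) := Real.mul_rpow (by norm_num) (by positivity)
      _ ≤ 2 * (X / D) ^ (0.998 : ℝ) := by
          refine mul_le_mul_of_nonneg_right ?_ (by positivity)
          calc (2 : ℝ) ^ (0.998 : ℝ) ≤ 2 ^ (1 : ℝ) :=
                Real.rpow_le_rpow_of_exponent_le (by norm_num) (by norm_num)
            _ = 2 := by norm_num
  calc ((Near d X).ncard : ℝ) ≤ 4 * C0 * E * ((2 : ℝ) ^ (0.998 : ℝ)) ^ (k + 1) := h2.trans h1
    _ ≤ 4 * C0 * E * (2 * (X / D) ^ (0.998 : ℝ)) := by gcongr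
    _ = 8 * C0 * E * (X / D) ^ (0.998 : ℝ) := by ring

end Pool.Agent.H33.NC
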