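import Pool.Agent.H33.NC.B

/-! Many cycles for `d = 4 ^ m - 3 ^ m`. -/

set_option autoImplicit false

namespace Pool.Agent.H33.NC

open Finset

/-- the integer of a word -/
def Nw : List Bool → ℤ
  | [] => 0
  | b :: w => (if b then 3 ^ (w.count true) else 0) + 2 * Nw w

theorem Nw_append (w : List Bool) (b : Bool) :
    Nw (w ++ [b]) = if b then 3 * Nw w + 2 ^ w.length else Nw w := by
  induction w with
  | nil => cases b <;> simp [Nw]
  | cons a w ih =>
    rw [List.cons_append, Nw, ih, Nw, List.count_append, List.length_cons]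
    cases a <;> cases b <;> simp [pow_succ] <;> ring

theorem Nw_parity (b : Bool) (w : List Bool) : Nw (b :: w) % 2 = if b then 1 else 0 := by
  cases b
  · simp [Nw]
  · have h : (3 : ℤ) ^ (w.count true) % 2 = 1 := by
      rw [← Int.odd_iff]; exact Odd.pow (by decide)
    simp only [Nw, if_true]
    omega

/-- the `d` of a word -/
def dw (w : List Bool) : ℤ := 2 ^ w.length - 3 ^ (w.count true)

theorem dw_odd {w : List Bool} (h : w ≠ []) : dw w % 2 = 1 := by
  have h1 : (3 : ℤ) ^ (w.count true) % 2 = 1 := by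
    rw [← Int.odd_iff]; exact Odd.pow (by decide)
  have h2 : (2 : ℤ) ^ w.length % 2 = 0 := by
    obtain ⟨m, hm⟩ : ∃ m, w.length = m + 1 := ⟨w.length - 1, by
      have := List.length_pos_iff.2 h
      omega⟩
    rw [hm, pow_succ]; omega
  unfold dw; omega

theorem T_Nw (b : Bool) (w : List Bool) : T (dw (b :: w)) (Nw (b :: w)) = Nw (w ++ [b]) := by
  have hp := Nw_parity b w
  have hd := dw_odd (w := b :: w) (by simp)
  rw [Nw_append]
  cases b
  · have h := T_even (d := dw (false :: w)) (x := Nw (false :: w)) (by simpa using hp)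
    have h2 : Nw (false :: w) = 2 * Nw w := by simp [Nw]
    simp only [Bool.false_eq_true, if_false]
    omega
  · have h := T_odd (d := dw (true :: w)) (x := Nw (true :: w)) hd (by simpa using hp)
    have h2 : Nw (true :: w) = 3 ^ (w.count true) + 2 * Nw w := by simp [Nw]
    have h3 : dw (true :: w) = 2 * 2 ^ w.length - 3 * 3 ^ (w.count true) := by
      unfold dw
      rw [List.length_cons, List.count_cons_self, pow_succ, pow_succ]; ring
    simp only [if_true]
    rw [h2, h3] at h
    rw [h2, h3]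
    generalize (3 : ℤ) ^ (w.count true) = t at *
    generalize (2 : ℤ) ^ w.length = u at *
    omega

theorem dw_rotate (w : List Bool) (i : ℕ) : dw (w.rotate i) = dw w := by
  unfold dw
  rw [List.length_rotate, (List.rotate_perm w i).count_eq]

theorem T_iter (w : List Bool) (h : w ≠ []) : ∀ i : ℕ, (T (dw w))^[i] (Nw w) = Nw (w.rotate i)
  | 0 => by simp
  | i + 1 => by
      rw [Function.iterate_succ_apply', T_iter w h i]
      have h1 : w.rotate i ≠ [] := by
        intro h2
        have := congrArg List.length h2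
        rw [List.length_rotate] at this
        exact h (List.eq_nil_of_length_eq_zero (by simpa using this))
      have h3 : w.rotate (i + 1) = (w.rotate i).rotate 1 := by rw [List.rotate_rotate]
      rw [h3, ← dw_rotate w i]
      generalize w.rotate i = v at *
      cases v with
      | nil => exact (h1 rfl).elim
      | cons b v =>
        rw [T_Nw, List.rotate_cons_succ, List.rotate_zero]

theorem T_period (w : List Bool) (h : w ≠ []) : (T (dw w))^[w.length] (Nw w) = Nw w := by
  rw [T_iter w h, List.rotate_length]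

theorem Nw_inj : ∀ (w v : List Bool), w.length = v.length → w.count true = v.count true →
    Nw w = Nw v → w = v
  | [], [], _, _, _ => rfl
  | [], _ :: _, h, _, _ => by simp at h
  | _ :: _, [], h, _, _ => by simp at h
  | a :: w, b :: v, h, hc, hN => by
      have h1 := Nw_parity a w
      have h2 := Nw_parity b v
      rw [hN, h2] at h1
      have hab : a = b := by
        revert h1
        cases a <;> cases b <;> simp
      subst hab
      have hl : w.length = v.length := by simpa using h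
      have hc' : w.count true = v.count true := by
        simp only [List.count_cons] at hc
        omega
      have hN' : Nw w = Nw v := by
        simp only [Nw] at hN
        rw [hc'] at hN
        omega
      rw [Nw_inj w v hl hc' hN']

theorem Nw_nonneg : ∀ w : List Bool, 0 ≤ Nw w
  | [] => le_rfl
  | b :: w => by
      have := Nw_nonneg w
      simp only [Nw]
      split_ifs <;> positivity

theorem Nw_pos : ∀ w : List Bool, 0 < w.count true → 0 < Nw w
  | [], h => by simp at h
  | b :: w, h => by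
      simp only [Nw]
      cases b
      · have h1 : 0 < w.count true := by simpa using h
        have := Nw_pos w h1
        simp only [Bool.false_eq_true, if_false]; omega
      · have := Nw_nonneg w
        simp only [if_true]; positivity

/-- the words of length `p` with `j` ones -/
def words : ℕ → ℕ → Finset (List Bool)
  | 0, 0 => {[]}
  | 0, _ + 1 => ∅
  | p + 1, 0 => (words p 0).image (fun w => false :: w)
  | p + 1, j + 1 => (words p (j + 1)).image (fun w => false :: w) ∪ (words p j).image (fun w => true :: w)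

theorem mem_words : ∀ (p j : ℕ) (w : List Bool), w ∈ words p j → w.length = p ∧ w.count true = j
  | 0, 0, w, h => by
      simp only [words, mem_singleton] at h
      subst h; simp
  | 0, j + 1, w, h => by simp [words] at h
  | p + 1, 0, w, h => by
      simp only [words, mem_image] at h
      obtain ⟨v, hv, rfl⟩ := h
      obtain ⟨h1, h2⟩ := mem_words p 0 v hv
      simp [h1, h2]
  | p + 1, j + 1, w, h => by
      simp only [words, mem_union, mem_image] at h
      rcases h with ⟨v, hv, rfl⟩ | ⟨v, hv, rfl⟩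
      · obtain ⟨h1, h2⟩ := mem_words p (j + 1) v hv
        simp [h1, h2]
      · obtain ⟨h1, h2⟩ := mem_words p j v hv
        simp [h1, h2]

theorem card_words : ∀ p j : ℕ, #(words p j) = p.choose j
  | 0, 0 => by simp [words]
  | 0, j + 1 => by simp [words]
  | p + 1, 0 => by
      simp only [words]
      rw [card_image_of_injective _ (fun a b h => by simpa using h), card_words p 0]
      simp
  | p + 1, j + 1 => by
      simp only [words]
      rw [card_union_of_disjoint, card_image_of_injective _ (fun a b h => by simpa using h),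
        card_image_of_injective _ (fun a b h => by simpa using h), card_words p (j + 1),
        card_words p j, Nat.choose_succ_succ, add_comm]
      rw [disjoint_left]
      intro w h1 h2
      obtain ⟨v, -, rfl⟩ := mem_image.1 h1
      obtain ⟨u, -, h3⟩ := mem_image.1 h2
      simp at h3

theorem odds_Nw : ∀ (n : ℕ) (w : List Bool), n ≤ w.length → w ≠ [] →
    odds (dw w) n (Nw w) = (w.take n).count true
  | 0, w, _, _ => by simp [odds]
  | n + 1, [], h, h0 => (h0 rfl).elim
  | n + 1, b :: w, h, _ => by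
      have hl : n ≤ w.length := by simpa using h
      rw [odds, T_Nw, Nw_parity]
      have e : dw (b :: w) = dw (w ++ [b]) := by
        have := dw_rotate (b :: w) 1
        rw [List.rotate_cons_succ, List.rotate_zero] at this
        exact this.symm
      rw [e, odds_Nw n (w ++ [b]) (by simp; omega) (by simp), List.take_append_of_le_length hl,
        List.take_succ_cons, List.count_cons]
      cases b <;> simp [add_comm]

/-- above `d` an orbit grows at most by the factor `2` at the odd elements -/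
theorem growth {d : ℤ} (hd : d % 2 = 1) (hd0 : 0 < d) : ∀ (n : ℕ) (x : ℤ),
    (∀ i : ℕ, d < (T d)^[i] x) → 2 ^ n * (T d)^[n] x ≤ 4 ^ (odds d n x) * x ∧
      (1 ≤ odds d n x → 2 ^ n * (T d)^[n] x < 4 ^ (odds d n x) * x)
  | 0, x, _ => by simp [odds]
  | n + 1, x, h => by
      have h0 : d < x := by simpa using h 0
      obtain ⟨h1, h2⟩ := growth hd hd0 n (T d x) (fun i => by
        have := h (i + 1)
        rwa [Function.iterate_succ_apply] at this)
      rw [odds, Function.iterate_succ_apply, pow_succ]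
      have h4 : (0 : ℤ) < 4 ^ (odds d n (T d x)) := by positivity
      rcases Int.emod_two_eq_zero_or_one x with hp | hp
      · have e := T_even (d := d) hp
        rw [hp]
        simp only [Int.toNat_zero, zero_add]
        constructor
        · nlinarith
        · intro h3
          have := h2 h3
          nlinarith
      · have e := T_odd hd hp
        rw [hp]
        simp only [Int.toNat_one]
        rw [pow_add, pow_one]
        have h5 : 2 * T d x < 4 * x := by omega
        have h6 : 4 ^ (odds d n (T d x)) * (2 * T d x) < 4 ^ (odds d n (T d x)) * (4 * x) :=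
          mul_lt_mul_of_pos_left h5 h4
        constructor
        · nlinarith
        · intro _
          nlinarith

/-- some element of the cycle of a word with at most as many ones as zeros is at most `d` -/
theorem exists_small {w : List Bool} (h1 : 1 ≤ w.count true) (h2 : 2 * w.count true ≤ w.length) :
    ∃ i : ℕ, (T (dw w))^[i] (Nw w) ≤ dw w := by
  have hne : w ≠ [] := by rintro rfl; simp at h1
  have hd := dw_odd hne
  have hd0 : 0 < dw w := by
    unfold dw
    have h3 : (4 : ℤ) ^ w.count true ≤ 2 ^ w.length := by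
      rw [show (4 : ℤ) = 2 ^ 2 by norm_num, ← pow_mul]
      exact pow_le_pow_right₀ (by norm_num) h2
    have h4 : (3 : ℤ) ^ w.count true < 4 ^ w.count true :=
      pow_lt_pow_left₀ (by norm_num) (by norm_num) (by omega)
    omega
  by_contra hcon
  push Not at hcon
  obtain ⟨-, h3⟩ := growth hd hd0 w.length (Nw w) hcon
  rw [odds_Nw _ _ le_rfl hne, List.take_length, T_period w hne] at h3
  have h4 := h3 h1
  have h5 : 0 < Nw w := Nw_pos w h1
  have h6 : (4 : ℤ) ^ w.count true ≤ 2 ^ w.length := by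
    rw [show (4 : ℤ) = 2 ^ 2 by norm_num, ← pow_mul]
    exact pow_le_pow_right₀ (by norm_num) h2
  nlinarith

/-- **many cycles**: `2 ^ p - 3 ^ j`, `2 j ≤ p` -/
theorem many {p j : ℕ} (hj : 1 ≤ j) (hjp : 2 * j ≤ p) :
    p.choose j ≤ p * (Near (2 ^ p - 3 ^ j) ((2 : ℝ) ^ p - 3 ^ j)).ncard := by
  classical
  set d : ℤ := 2 ^ p - 3 ^ j with hd
  have hX : ((2 : ℝ) ^ p - 3 ^ j) = (d : ℝ) := by rw [hd]; push_cast; ring
  rw [hX]
  have hdw : ∀ w ∈ words p j, dw w = d := by
    intro w hw
    obtain ⟨h1, h2⟩ := mem_words p j w hw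
    unfold dw; rw [h1, h2]
  have hne : ∀ w ∈ words p j, w ≠ [] := by
    intro w hw h
    obtain ⟨h1, h2⟩ := mem_words p j w hw
    rw [h] at h1 h2
    simp at h1; omega
  set S : Finset ℤ := (words p j).image Nw with hS
  have hcard : #S = p.choose j := by
    rw [hS, card_image_of_injOn, card_words]
    intro w hw v hv hwv
    obtain ⟨h1, h2⟩ := mem_words p j w hw
    obtain ⟨h3, h4⟩ := mem_words p j v hv
    exact Nw_inj w v (h1.trans h3.symm) (h2.trans h4.symm) hwv
  set cy : ℤ → Set ℤ := fun x => {z | ∃ i : ℕ, z = (T d)^[i] x} with hcy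
  have hper : ∀ x ∈ S, (T d)^[p] x = x := by
    intro x hx
    obtain ⟨w, hw, rfl⟩ := mem_image.1 hx
    have h1 := T_period w (hne w hw)
    rw [hdw w hw, (mem_words p j w hw).1] at h1
    exact h1
  have hp : 1 ≤ p := by omega
  have hnear : ∀ x ∈ S, cy x ∈ Near d (d : ℝ) := by
    intro x hx
    refine ⟨⟨x, p, hp, hper x hx, rfl⟩, ?_⟩
    obtain ⟨w, hw, rfl⟩ := mem_image.1 hx
    obtain ⟨h1, h2⟩ := mem_words p j w hw
    obtain ⟨i, hi⟩ := exists_small (w := w) (by omega) (by omega)
    rw [hdw w hw] at hi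
    refine ⟨(T d)^[i] (Nw w), ⟨i, rfl⟩, ?_⟩
    have h3 : 0 ≤ (T d)^[i] (Nw w) := by
      rw [← hdw w hw, T_iter w (hne w hw)]
      exact Nw_nonneg _
    rw [abs_of_nonneg (by exact_mod_cast h3)]
    exact_mod_cast hi
  have hfib : ∀ Z ∈ S.image cy, #(S.filter fun x => cy x = Z) ≤ p := by
    intro Z hZ
    obtain ⟨x, hx, rfl⟩ := mem_image.1 hZ
    have h1 : (S.filter fun y => cy y = cy x) ⊆ (range p).image (fun i => (T d)^[i] x) := by
      intro y hy
      have h2 : y ∈ cy x := by
        rw [← (mem_filter.1 hy).2]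
        exact ⟨0, rfl⟩
      obtain ⟨i, rfl⟩ := h2
      refine mem_image.2 ⟨i % p, mem_range.2 (Nat.mod_lt _ hp), ?_⟩
      exact Function.IsPeriodicPt.iterate_mod_apply (hper x hx) i
    exact (card_le_card h1).trans (card_image_le.trans (by simp))
  have h1 := card_le_mul_card_image (f := cy) S p hfib
  rw [hcard] at h1
  have h2 : #(S.image cy) ≤ (Near d (d : ℝ)).ncard := by
    rw [← Set.ncard_coe_finset]
    refine Set.ncard_le_ncard ?_ ?_
    · intro Z hZ
      obtain ⟨x, hx, rfl⟩ := mem_image.1 (mem_coe.1 hZ)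
      exact hnear x hx
    · -- finiteness
      refine ((box (d : ℝ)).finite_toSet.image (fun z => {w | ∃ i : ℕ, w = (T d)^[i] z})).subset ?_
      rintro Z ⟨hZ, z, hz, hzX⟩
      obtain ⟨p, -, -, e⟩ := hZ.of_mem hz
      exact ⟨z, mem_coe.2 (mem_box.2 hzX), e.symm⟩
  exact h1.trans (Nat.mul_le_mul_left p h2)

/-- a lower bound for the central binomial coefficients -/
theorem central : ∀ m : ℕ, (4 ^ (m + 1)) ^ 2 ≤ (4 * (m + 1)) * (Nat.centralBinom (m + 1)) ^ 2
  | 0 => by simp [Nat.centralBinom]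
  | k + 1 => by
      have h := central k
      set m := k + 1 with hm
      have e := Nat.succ_mul_centralBinom_succ m
      have h2 : (m + 1) ^ 2 * (4 ^ (m + 1)) ^ 2 ≤
          (m + 1) ^ 2 * ((4 * (m + 1)) * (Nat.centralBinom (m + 1)) ^ 2) := by
        calc (m + 1) ^ 2 * (4 ^ (m + 1)) ^ 2 = 16 * (m + 1) ^ 2 * (4 ^ m) ^ 2 := by ring
          _ ≤ 16 * (m + 1) ^ 2 * ((4 * m) * (Nat.centralBinom m) ^ 2) := Nat.mul_le_mul_left _ h
          _ = (16 * (m + 1) * (Nat.centralBinom m) ^ 2) * (4 * m * (m + 1)) := by ring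
          _ ≤ (16 * (m + 1) * (Nat.centralBinom m) ^ 2) * (2 * m + 1) ^ 2 :=
              Nat.mul_le_mul_left _ (by nlinarith)
          _ = 4 * (m + 1) * (2 * (2 * m + 1) * Nat.centralBinom m) ^ 2 := by ring
          _ = 4 * (m + 1) * ((m + 1) * Nat.centralBinom (m + 1)) ^ 2 := by rw [e]
          _ = _ := by ring
      exact Nat.le_of_mul_le_mul_left h2 (by positivity)

/-- **Many cycles of the `3x+d` map, `d = 4 ^ m - 3 ^ m`.** -/
theorem lower {m : ℕ} (hm : 2 ≤ m) :
    ((4 : ℝ) ^ m - 3 ^ m) / (8 * Real.log ((4 : ℝ) ^ m - 3 ^ m) ^ (3 / 2 : ℝ)) ≤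
      ((Near (4 ^ m - 3 ^ m) ((4 : ℝ) ^ m - 3 ^ m)).ncard : ℝ) := by
  have h1 := many (p := 2 * m) (j := m) (by omega) le_rfl
  have e1 : (2 : ℤ) ^ (2 * m) = 4 ^ m := by rw [pow_mul]; norm_num
  have e2 : (2 : ℝ) ^ (2 * m) = 4 ^ m := by rw [pow_mul]; norm_num
  rw [e1, e2] at h1
  set N := (Near (4 ^ m - 3 ^ m) ((4 : ℝ) ^ m - 3 ^ m)).ncard with hN
  set d : ℝ := (4 : ℝ) ^ m - 3 ^ m with hd
  obtain ⟨k, rfl⟩ : ∃ k, m = k + 1 := ⟨m - 1, by omega⟩
  have h2 := central k
  have e3 : Nat.centralBinom (k + 1) = (2 * (k + 1)).choose (k + 1) := by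
    rw [Nat.centralBinom]
  rw [← e3] at h1
  have hm0 : (0 : ℝ) < ((k + 1 : ℕ) : ℝ) := by positivity
  -- `4 ^ m ≤ 4 m ^ (3/2) N`
  have h3 : ((4 : ℝ) ^ (k + 1)) ^ 2 ≤ (4 * ((k + 1 : ℕ) : ℝ) * Real.sqrt ((k + 1 : ℕ) : ℝ) * N) ^ 2 := by
    have h4 : ((4 : ℝ) ^ (k + 1)) ^ 2 ≤ (4 * ((k + 1 : ℕ) : ℝ)) * (Nat.centralBinom (k + 1) : ℝ) ^ 2 := by
      exact_mod_cast h2
    have h5 : (Nat.centralBinom (k + 1) : ℝ) ≤ 2 * ((k + 1 : ℕ) : ℝ) * N := by exact_mod_cast h1
    calc ((4 : ℝ) ^ (k + 1)) ^ 2 ≤ (4 * ((k + 1 : ℕ) : ℝ)) * (Nat.centralBinom (k + 1) : ℝ) ^ 2 := h4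
      _ ≤ (4 * ((k + 1 : ℕ) : ℝ)) * (2 * ((k + 1 : ℕ) : ℝ) * N) ^ 2 := by gcongr
      _ = 16 * ((k + 1 : ℕ) : ℝ) ^ 2 * ((k + 1 : ℕ) : ℝ) * (N : ℝ) ^ 2 := by ring
      _ = 16 * ((k + 1 : ℕ) : ℝ) ^ 2 * Real.sqrt ((k + 1 : ℕ) : ℝ) ^ 2 * (N : ℝ) ^ 2 := by
          rw [Real.sq_sqrt hm0.le]
      _ = _ := by ring
  have h4 : (4 : ℝ) ^ (k + 1) ≤ 4 * ((k + 1 : ℕ) : ℝ) * Real.sqrt ((k + 1 : ℕ) : ℝ) * N :=
    le_of_pow_le_pow_left₀ (by norm_num) (by positivity) h3
  -- `m ≤ 1.45 log d`
  have hdlow : (4 : ℝ) ^ k ≤ d := by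
    have h5 : (3 : ℝ) ^ (k + 1) ≤ 3 * 4 ^ k := by
      rw [pow_succ, mul_comm]
      gcongr
      norm_num
    rw [hd, pow_succ (4 : ℝ) k]
    linarith
  have hd0 : 0 < d := lt_of_lt_of_le (by positivity) hdlow
  have hlog : (k : ℝ) * 1.386 ≤ Real.log d := by
    have h5 : Real.log ((4 : ℝ) ^ k) ≤ Real.log d := Real.log_le_log (by positivity) hdlow
    rw [Real.log_pow] at h5
    have h6 : Real.log 4 = 2 * Real.log 2 := by
      rw [show (4 : ℝ) = 2 ^ 2 by norm_num, Real.log_pow]; norm_num
    have h7 := Real.log_two_gt_d9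
    rw [h6] at h5
    have h8 : (0 : ℝ) ≤ k := Nat.cast_nonneg k
    nlinarith
  have hk : (1 : ℝ) ≤ k := by
    have : 1 ≤ k := by omega
    exact_mod_cast this
  have hlog0 : 0 < Real.log d := by nlinarith
  have hm1 : ((k + 1 : ℕ) : ℝ) ≤ 1.45 * Real.log d := by
    push_cast
    nlinarith
  -- `m ^ (3/2) ≤ 2 (log d) ^ (3/2)`
  have h6 : ((k + 1 : ℕ) : ℝ) * Real.sqrt ((k + 1 : ℕ) : ℝ) ≤ 2 * Real.log d ^ (3 / 2 : ℝ) := by
    have h7 : Real.sqrt ((k + 1 : ℕ) : ℝ) ≤ 1.25 * Real.sqrt (Real.log d) := by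
      rw [Real.sqrt_le_left (by positivity), mul_pow, Real.sq_sqrt hlog0.le]
      linarith
    have h8 : Real.log d ^ (3 / 2 : ℝ) = Real.log d * Real.sqrt (Real.log d) := by
      rw [show (3 / 2 : ℝ) = 1 + 1 / 2 by norm_num, Real.rpow_add hlog0, Real.rpow_one,
        Real.sqrt_eq_rpow]
    rw [h8]
    calc _ ≤ (1.45 * Real.log d) * (1.25 * Real.sqrt (Real.log d)) :=
          mul_le_mul hm1 h7 (Real.sqrt_nonneg _) (by positivity)
      _ = 1.8125 * (Real.log d * Real.sqrt (Real.log d)) := by ring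
      _ ≤ 2 * (Real.log d * Real.sqrt (Real.log d)) := by
          have : 0 ≤ Real.log d * Real.sqrt (Real.log d) := by positivity
          linarith
  have h7 : 0 < Real.log d ^ (3 / 2 : ℝ) := by positivity
  rw [div_le_iff₀ (by positivity)]
  have hNn : (0 : ℝ) ≤ N := Nat.cast_nonneg N
  have h9 : d ≤ (4 : ℝ) ^ (k + 1) := by
    rw [hd]
    have : (0 : ℝ) < 3 ^ (k + 1) := by positivity
    linarith
  calc d ≤ 4 * ((k + 1 : ℕ) : ℝ) * Real.sqrt ((k + 1 : ℕ) : ℝ) * N := h9.trans h4
    _ = 4 * (((k + 1 : ℕ) : ℝ) * Real.sqrt ((k + 1 : ℕ) : ℝ)) * N := by ring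
    _ ≤ 4 * (2 * Real.log d ^ (3 / 2 : ℝ)) * N := by gcongr
    _ = N * (8 * Real.log d ^ (3 / 2 : ℝ)) := by ring

/-- a set which every orbit meets has at least as many elements as there are cycles -/
theorem attracting {d : ℤ} (X : ℝ) (F : Finset ℤ) (hF : ∀ x : ℤ, ∃ k : ℕ, (T d)^[k] x ∈ F)
    (hfin : (Near d X).Finite) : (Near d X).ncard ≤ #F := by
  classical
  rw [Set.ncard_eq_toFinset_card _ hfin]
  have h := count_disjoint (d := d) hfin.toFinset (fun Z hZ => (hfin.mem_toFinset.1 hZ).1) F (r := 1) (by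
    intro Z hZ
    obtain ⟨hZc, z, hz, -⟩ := hfin.mem_toFinset.1 hZ
    obtain ⟨k, hk⟩ := hF z
    refine ⟨{(T d)^[k] z}, singleton_subset_iff.2 hk, ?_, by simp⟩
    intro w hw
    rw [mem_singleton] at hw
    rw [hw]; exact hZc.iter hz k)
  rw [one_mul] at h
  exact_mod_cast h

end Pool.Agent.H33.NC
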