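import Mathlib

/-!
# Returns of the `3 x + k` maps modulo `k`

(From the library module `R_pool_sql_team_seeded_3997aac3.Q64.CY.Dyn`.)
-/

set_option autoImplicit false

namespace Pool.Agent.H33.NC.Q64

open Finset Filter Topology

/-- the `3x+k` map -/
def T (k x : ℤ) : ℤ := if x % 2 = 0 then x / 2 else (3 * x + k) / 2

/-- the number of odd integers among the first `n` terms of the orbit of `x` -/
def odds (k : ℤ) (n : ℕ) (x : ℤ) : ℕ := ((range n).filter fun i => ((T k)^[i] x) % 2 ≠ 0).card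

lemma odds_le (k : ℤ) (n : ℕ) (x : ℤ) : odds k n x ≤ n := by
  unfold odds
  refine (card_filter_le _ _).trans ?_
  rw [card_range]

lemma odds_succ (k : ℤ) (n : ℕ) (x : ℤ) :
    odds k (n + 1) x = odds k n x + if ((T k)^[n] x) % 2 = 0 then 0 else 1 := by
  unfold odds
  rw [range_add_one, filter_insert]
  by_cases h : ((T k)^[n] x) % 2 = 0
  · rw [if_pos h, if_neg (by simpa using h), add_zero]
  · rw [if_neg h, if_pos h, card_insert_of_notMem (by simp)]

lemma two_T {k : ℤ} (hk : k % 2 = 1) (x : ℤ) :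
    2 * T k x ≡ (if x % 2 = 0 then 1 else 3) * x [ZMOD k] := by
  unfold T
  split_ifs with h
  · have : 2 * (x / 2) = x := by omega
    rw [this, one_mul]
  · have : 2 * ((3 * x + k) / 2) = 3 * x + k := by omega
    rw [this]
    exact (Int.modEq_iff_dvd.2 ⟨-1, by ring⟩)

lemma pow_T {k : ℤ} (hk : k % 2 = 1) (x : ℤ) (n : ℕ) :
    2 ^ n * (T k)^[n] x ≡ 3 ^ odds k n x * x [ZMOD k] := by
  induction n with
  | zero => simp [odds]
  | succ n ih =>
    rw [Function.iterate_succ_apply', odds_succ]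
    set y := (T k)^[n] x with hy
    have h1 := two_T hk y
    calc (2 : ℤ) ^ (n + 1) * T k y = 2 ^ n * (2 * T k y) := by ring
      _ ≡ 2 ^ n * ((if y % 2 = 0 then 1 else 3) * y) [ZMOD k] := h1.mul_left _
      _ = (if y % 2 = 0 then 1 else 3) * (2 ^ n * y) := by ring
      _ ≡ (if y % 2 = 0 then 1 else 3) * (3 ^ odds k n x * x) [ZMOD k] := ih.mul_left _
      _ = 3 ^ (odds k n x + if y % 2 = 0 then 0 else 1) * x := by
        split_ifs <;> ring

/-- a return modulo `k` after `n` steps -/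
lemma return_dvd {k : ℤ} (hk : k % 2 = 1) {x : ℤ} {n : ℕ} (h : (T k)^[n] x ≡ x [ZMOD k]) :
    ((k.natAbs / Nat.gcd x.natAbs k.natAbs : ℕ) : ℤ) ∣ (2 : ℤ) ^ n - 3 ^ odds k n x := by
  have hk0 : k ≠ 0 := by rintro rfl; simp at hk
  have h1 := pow_T hk x n
  have h2 : (2 : ℤ) ^ n * x ≡ 3 ^ odds k n x * x [ZMOD k] := (h.symm.mul_left _).trans h1
  have h3 : k ∣ (2 ^ n - 3 ^ odds k n x) * x := by
    have := (Int.modEq_iff_dvd.1 h2.symm)
    rwa [← sub_mul] at this
  have h4 : k.natAbs ∣ ((2 : ℤ) ^ n - 3 ^ odds k n x).natAbs * x.natAbs := by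
    rw [← Int.natAbs_mul]
    exact Int.natAbs_dvd_natAbs.2 h3
  set g := Nat.gcd x.natAbs k.natAbs with hg
  have hgpos : 0 < g := Nat.gcd_pos_of_pos_right _ (Int.natAbs_pos.2 hk0)
  have h5 : k.natAbs / g ∣ ((2 : ℤ) ^ n - 3 ^ odds k n x).natAbs * (x.natAbs / g) := by
    have hgk : g ∣ k.natAbs := Nat.gcd_dvd_right _ _
    have hgx : g ∣ x.natAbs := Nat.gcd_dvd_left _ _
    have h6 : g * (k.natAbs / g) ∣ g * (((2 : ℤ) ^ n - 3 ^ odds k n x).natAbs * (x.natAbs / g)) := by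
      rw [Nat.mul_div_cancel' hgk]
      have e : g * (((2 : ℤ) ^ n - 3 ^ odds k n x).natAbs * (x.natAbs / g)) =
          ((2 : ℤ) ^ n - 3 ^ odds k n x).natAbs * x.natAbs := by
        rw [mul_left_comm, Nat.mul_div_cancel' hgx]
      rw [e]
      exact h4
    exact Nat.dvd_of_mul_dvd_mul_left hgpos h6
  have hcop : Nat.Coprime (k.natAbs / g) (x.natAbs / g) := by
    have := Nat.coprime_div_gcd_div_gcd (m := x.natAbs) (n := k.natAbs) hgpos
    exact this.symm
  have h6 : k.natAbs / g ∣ ((2 : ℤ) ^ n - 3 ^ odds k n x).natAbs :=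
    hcop.dvd_of_dvd_mul_right h5
  exact Int.natCast_dvd.2 h6


end Pool.Agent.H33.NC.Q64
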