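import Pool.Agent.H33.NC.C
import Pool.Agent.H33.NC.Alm

/-! Few cycles near the origin for almost all `d`. -/

set_option autoImplicit false

namespace Pool.Agent.H33.NC

open Finset Filter Topology

/-- integers of `[-d, d]` with a large common divisor with `d` -/
theorem big_gcd {d : ℕ} (hd : 1 ≤ d) {z : ℝ} (hz : 1 ≤ z) (S : Finset ℤ)
    (hS : ∀ x ∈ S, |(x : ℝ)| ≤ d ∧ (d : ℝ) < z * (Int.gcd x d : ℝ)) : (#S : ℝ) ≤ 6 * z ^ 2 := by
  classical
  have h1 : #S ≤ #((range (⌊z⌋₊ + 1)) ×ˢ (box z)) := by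
    refine card_le_card_of_injOn (fun x => (d / Int.gcd x d, x / (Int.gcd x d : ℤ))) ?_ ?_
    · intro x hx
      obtain ⟨h2, h3⟩ := hS x (mem_coe.1 hx)
      have hg : 0 < Int.gcd x d := Int.gcd_pos_of_ne_zero_right _ (by exact_mod_cast (by omega : d ≠ 0))
      have hgr : (0 : ℝ) < Int.gcd x d := by exact_mod_cast hg
      have hgd : (Int.gcd x d) ∣ d := by exact_mod_cast Int.gcd_dvd_right x (d : ℤ)
      have hgx : ((Int.gcd x d : ℕ) : ℤ) ∣ x := Int.gcd_dvd_left x (d : ℤ)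
      obtain ⟨e, he⟩ := hgd
      obtain ⟨x', hx'⟩ := hgx
      set g := Int.gcd x d with hgdef
      rw [coe_product, Set.mem_prod]
      simp only [coe_range, Set.mem_Iio, mem_coe, mem_box]
      have e1 : d / g = e := by rw [he]; exact Nat.mul_div_cancel_left _ hg
      have e2 : x / (g : ℤ) = x' := by
        rw [hx']; exact Int.mul_ediv_cancel_left _ (by exact_mod_cast hg.ne')
      have he' : (e : ℝ) < z := by
        have : (d : ℝ) = g * e := by exact_mod_cast he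
        rw [this] at h3
        nlinarith
      rw [e1, e2]
      refine ⟨?_, ?_⟩
      · rw [Nat.lt_add_one_iff, Nat.le_floor_iff (by linarith)]
        exact he'.le
      · have h4 : |(x : ℝ)| = g * |(x' : ℝ)| := by
          have : (x : ℝ) = g * x' := by exact_mod_cast hx'
          rw [this, abs_mul, abs_of_pos hgr]
        have h5 : (d : ℝ) = g * e := by exact_mod_cast he
        rw [h4, h5] at h2
        have := le_of_mul_le_mul_left h2 hgr
        linarith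
    · intro x hx y hy hxy
      have hgx : 0 < Int.gcd x d := Int.gcd_pos_of_ne_zero_right _ (by exact_mod_cast (by omega : d ≠ 0))
      have hgy : 0 < Int.gcd y d := Int.gcd_pos_of_ne_zero_right _ (by exact_mod_cast (by omega : d ≠ 0))
      have h2 : (Int.gcd x d) ∣ d := by exact_mod_cast Int.gcd_dvd_right x (d : ℤ)
      have h3 : (Int.gcd y d) ∣ d := by exact_mod_cast Int.gcd_dvd_right y (d : ℤ)
      have h4 : ((Int.gcd x d : ℕ) : ℤ) ∣ x := Int.gcd_dvd_left x (d : ℤ)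
      have h5 : ((Int.gcd y d : ℕ) : ℤ) ∣ y := Int.gcd_dvd_left y (d : ℤ)
      have hxy1 : d / Int.gcd x d = d / Int.gcd y d := (Prod.mk.inj hxy).1
      have hxy2 : x / (Int.gcd x d : ℤ) = y / (Int.gcd y d : ℤ) := (Prod.mk.inj hxy).2
      have hgg : Int.gcd x d = Int.gcd y d := by
        have e1 := Nat.div_mul_cancel h2
        have e2 := Nat.div_mul_cancel h3
        rw [hxy1] at e1
        have h0 : 0 < d / Int.gcd y d := Nat.div_pos (Nat.le_of_dvd (by omega) h3) hgy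
        exact Nat.eq_of_mul_eq_mul_left h0 (e1.trans e2.symm)
      have e1 := Int.ediv_mul_cancel h4
      have e2 := Int.ediv_mul_cancel h5
      rw [← e1, ← e2, hxy2, hgg]
  rw [card_product, card_range] at h1
  have h2 : (#S : ℝ) ≤ ((⌊z⌋₊ : ℝ) + 1) * #(box z) := by exact_mod_cast h1
  have h3 : ((⌊z⌋₊ : ℕ) : ℝ) ≤ z := Nat.floor_le (by linarith)
  have h4 := card_box (R := z) (by linarith)
  have h5 : (0 : ℝ) ≤ #(box z) := Nat.cast_nonneg _
  calc (#S : ℝ) ≤ ((⌊z⌋₊ : ℝ) + 1) * #(box z) := h2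
    _ ≤ (z + 1) * (2 * z + 1) := mul_le_mul (by linarith) h4 h5 (by linarith)
    _ ≤ 6 * z ^ 2 := by nlinarith

/-- the number of the cycles of a map without short cycles of its own -/
theorem near_le {d : ℕ} (hd : d % 2 = 1) {n : ℕ} (hn : 20 ≤ n) (hn1 : (16 : ℝ) ^ n ≤ d)
    (hn2 : (d : ℝ) < 16 ^ (n + 1)) {L : ℕ} (hL : 2 * n ≤ L) {z : ℝ} (hz : 1 ≤ z)
    (hno : ¬ ∃ (x : ℤ) (k : ℕ), 1 ≤ k ∧ k ≤ L ∧ (T (d : ℤ))^[k] x ≡ x [ZMOD (d : ℤ)] ∧
      z * (Int.gcd x d : ℝ) ≤ d) :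
    ((Near (d : ℤ) (d : ℝ)).ncard : ℝ) ≤ 6 * z ^ 2 + 4020 * (d : ℝ) ^ (0.998 : ℝ) + 8040 * d / L := by
  classical
  have hd1 : 1 ≤ d := by omega
  have hdr : (1 : ℝ) ≤ d := by exact_mod_cast hd1
  have hdo : (d : ℤ) % 2 = 1 := by exact_mod_cast hd
  have hfin := near_finite (d := (d : ℤ)) (d : ℝ)
  set A := hfin.toFinset with hA
  have hcy : ∀ Z ∈ A, IsCycle (d : ℤ) Z := fun Z hZ => (hfin.mem_toFinset.1 hZ).1
  set P : Set ℤ → Prop := fun Z => ∃ x ∈ Z, |(x : ℝ)| ≤ 100 * d ∧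
    L ≤ Function.minimalPeriod (T (d : ℤ)) x with hP
  have hsplit : (#A : ℝ) = #(A.filter P) + #(A.filter fun Z => ¬ P Z) := by
    have := card_filter_add_card_filter_not (s := A) P
    exact_mod_cast this.symm
  have hL0 : (0 : ℝ) < L := by
    have : 0 < L := by omega
    exact_mod_cast this
  have h1 : (#(A.filter P) : ℝ) ≤ 4020 * (d : ℝ) ^ (0.998 : ℝ) + 8040 * d / L := by
    have h2 := count_cycles (d := (d : ℤ)) hdo (y := d) (by simp) hn
      ((pow_le_pow_left₀ (by norm_num) (by norm_num) n).trans hn1) hL (A.filter P)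
      (fun Z hZ => hcy Z (mem_filter.1 hZ).1) (fun Z hZ => (mem_filter.1 hZ).2) (box (100 * d))
      (fun Z hZ z hz hz1 => mem_box.2 hz1)
    have h3 := card_box (R := 100 * (d : ℝ)) (by positivity)
    have h4 := pow992 n (y := d) (by linarith) hn2
    have h5 : (d : ℝ) * (d : ℝ) ^ (-0.002 : ℝ) = (d : ℝ) ^ (0.998 : ℝ) := by
      nth_rewrite 1 [← Real.rpow_one (d : ℝ)]
      rw [← Real.rpow_add (by linarith)]; norm_num
    have h6 : 2010 * (d : ℝ) * (0.992 : ℝ) ^ n ≤ 4020 * (d : ℝ) ^ (0.998 : ℝ) := by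
      calc 2010 * (d : ℝ) * (0.992 : ℝ) ^ n ≤ 2010 * (d : ℝ) * (2 * (d : ℝ) ^ (-0.002 : ℝ)) := by gcongr
        _ = 4020 * ((d : ℝ) * (d : ℝ) ^ (-0.002 : ℝ)) := by ring
        _ = _ := by rw [h5]
    have h7 : 40 * (#(box (100 * (d : ℝ))) : ℝ) / L ≤ 8040 * d / L := by
      refine div_le_div_of_nonneg_right ?_ hL0.le
      linarith
    linarith
  have h2 : (#(A.filter fun Z => ¬ P Z) : ℝ) ≤ 6 * z ^ 2 := by
    have hex : ∀ Z : Set ℤ, ∃ x : ℤ, Z ∈ A.filter (fun Z => ¬ P Z) → x ∈ Z ∧ |(x : ℝ)| ≤ d ∧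
        Function.minimalPeriod (T (d : ℤ)) x < L := by
      intro Z
      by_cases hZ : Z ∈ A.filter (fun Z => ¬ P Z)
      · obtain ⟨hZA, hnP⟩ := mem_filter.1 hZ
        obtain ⟨-, x, hx, hx1⟩ := hfin.mem_toFinset.1 hZA
        refine ⟨x, fun _ => ⟨hx, hx1, ?_⟩⟩
        by_contra hcon
        push Not at hcon
        exact hnP ⟨x, hx, by linarith, hcon⟩
      · exact ⟨0, fun h => (hZ h).elim⟩
    choose f hf using hex
    rw [← card_image_of_injOn (s := A.filter fun Z => ¬ P Z) (f := f)]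
    · refine big_gcd hd1 hz _ ?_
      intro x hx
      obtain ⟨Z, hZ, rfl⟩ := mem_image.1 hx
      obtain ⟨h3, h4, h5⟩ := hf Z hZ
      refine ⟨h4, ?_⟩
      by_contra hcon
      push Not at hcon
      have hper := (hcy Z (mem_filter.1 hZ).1).period h3
      refine hno ⟨f Z, Function.minimalPeriod (T (d : ℤ)) (f Z), hper, h5.le, ?_, hcon⟩
      rw [Function.iterate_minimalPeriod]
    · intro Z hZ W hW hZW
      have hZ' := mem_coe.1 hZ
      have hW' := mem_coe.1 hW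
      have h3 := (hf Z hZ').1
      have h4 := (hf W hW').1
      change f Z = f W at hZW
      rw [← hZW] at h4
      exact (hcy Z (mem_filter.1 hZ').1).eq_of_mem (hcy W (mem_filter.1 hW').1) h3 h4
  rw [Set.ncard_eq_toFinset_card _ hfin, ← hA, hsplit]
  linarith

theorem rpow_absorb {a b C : ℝ} (hab : a < b) : ∀ᶠ x : ℝ in atTop, C * x ^ a ≤ 1 / 3 * x ^ b := by
  have h := (tendsto_rpow_atTop (show 0 < b - a by linarith)).eventually_ge_atTop (3 * C)
  filter_upwards [h, eventually_gt_atTop 0] with x hx hx0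
  have e : x ^ b = x ^ a * x ^ (b - a) := by rw [← Real.rpow_add hx0]; congr 1; ring
  rw [e]
  have : 0 ≤ x ^ a := by positivity
  nlinarith

open Classical in
/-- **Few cycles near the origin for almost all `d`.** -/
theorem typical {η : ℝ} (hη : 0 < η) (hη1 : η ≤ 1) : ∃ X₀ : ℕ, ∀ X : ℕ, X₀ ≤ X →
    (#((Icc 1 X).filter fun d : ℕ => d % 2 = 1 ∧
      (d : ℝ) ^ (1 - η / 1000) < ((Near (d : ℤ) (d : ℝ)).ncard : ℝ)) : ℝ) ≤ η * X := by
  -- the inequality for large `d`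
  have hev : ∀ᶠ x : ℝ in atTop, 16080 * (2 / η) * x ^ (1 - η / 168) ≤ 1 / 3 * x ^ (1 - η / 1000) ∧
      4020 * x ^ (0.998 : ℝ) ≤ 1 / 3 * x ^ (1 - η / 1000) ∧
      6 * (2 / η) * x ^ (1 / 2 : ℝ) ≤ 1 / 3 * x ^ (1 - η / 1000) ∧ 16 ^ 20 ≤ x := by
    filter_upwards [rpow_absorb (C := 16080 * (2 / η)) (show 1 - η / 168 < 1 - η / 1000 by linarith),
      rpow_absorb (C := 4020) (show (0.998 : ℝ) < 1 - η / 1000 by linarith),
      rpow_absorb (C := 6 * (2 / η)) (show (1 / 2 : ℝ) < 1 - η / 1000 by linarith),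
      eventually_ge_atTop (16 ^ 20 : ℝ)] with x h1 h2 h3 h4
    exact ⟨h1, h2, h3, h4⟩
  obtain ⟨x₁, hx₁⟩ := eventually_atTop.1 hev
  -- `2 log x ≤ N`
  have hev2 : ∀ᶠ x : ℝ in atTop, 2 * Real.log x + 2 ≤ x ^ (η / 168) := by
    have h1 : Tendsto (fun x : ℝ => x ^ (η / 336)) atTop atTop := tendsto_rpow_atTop (by positivity)
    filter_upwards [h1.eventually_ge_atTop (672 / η + 2), eventually_ge_atTop (1 : ℝ)] with x hx hx1
    have h2 := Real.log_le_rpow_div (show (0 : ℝ) ≤ x by linarith) (show 0 < η / 336 by positivity)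
    have e : x ^ (η / 168) = x ^ (η / 336) * x ^ (η / 336) := by
      rw [← Real.rpow_add (by linarith)]; congr 1; ring
    have e2 : x ^ (η / 336) / (η / 336) = 336 / η * x ^ (η / 336) := by field_simp
    rw [e2] at h2
    have h3 : 0 < 336 / η := by positivity
    have e3 : 672 / η = 2 * (336 / η) := by ring
    rw [e3] at hx
    rw [e]
    have h4 : (2 : ℝ) ≤ x ^ (η / 336) := by linarith
    nlinarith
  obtain ⟨x₂, hx₂⟩ := eventually_atTop.1 hev2
  obtain ⟨X₀, hX₀⟩ := exists_nat_ge (max (max (x₁ * (2 / η)) x₂) 2)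
  refine ⟨X₀, fun X hX => ?_⟩
  have hXr : max (max (x₁ * (2 / η)) x₂) 2 ≤ X := hX₀.trans (by exact_mod_cast hX)
  have hXx2 : x₂ ≤ X := ((le_max_right _ _).trans (le_max_left _ _)).trans hXr
  have hX2 : (2 : ℝ) ≤ X := (le_max_right _ _).trans hXr
  have hXx1 : x₁ * (2 / η) ≤ X := ((le_max_left _ _).trans (le_max_left _ _)).trans hXr
  have hX0 : (0 : ℝ) < X := by linarith
  set N : ℕ := ⌊(X : ℝ) ^ (η / 168)⌋₊ with hN
  have hNr := hx₂ X hXx2
  have hlogX : 0 < Real.log X := Real.log_pos (by linarith)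
  have hN1 : (N : ℝ) ≤ (X : ℝ) ^ (η / 168) := Nat.floor_le (by positivity)
  have hN2 : (X : ℝ) ^ (η / 168) < N + 1 := Nat.lt_floor_add_one _
  have hN3 : 2 ≤ N := by
    have : (1 : ℝ) < N := by linarith
    have : 1 < N := by exact_mod_cast this
    omega
  have hN4 : 2 * Real.log X ≤ N := by linarith
  set z : ℝ := (X : ℝ) ^ (1 / 4 : ℝ) with hz
  have hz1 : 1 ≤ z := Real.one_le_rpow (by linarith) (by norm_num)
  have hzlog : Real.log z = Real.log X / 4 := by rw [hz, Real.log_rpow hX0]; ring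
  have hbad := Q64.almost_all X N hN3 z hz1
  set B := (Icc 1 X).filter fun d : ℕ => d % 2 = 1 ∧ ∃ (x : ℤ) (n : ℕ), 1 ≤ n ∧ n ≤ N ∧
      (Q64.T (d : ℤ))^[n] x ≡ x [ZMOD (d : ℤ)] ∧ z * (Int.gcd x d : ℝ) ≤ d with hB
  have hBc : (#B : ℝ) ≤ η / 2 * X := by
    rw [hzlog] at hbad
    have h1 : Real.log N ≤ η / 168 * Real.log X := by
      have := Real.log_le_log (by positivity) hN1
      rwa [Real.log_rpow hX0] at this
    have h2 : (#B : ℝ) * (Real.log X / 4) ≤ 21 * X * (η / 168 * Real.log X) :=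
      hbad.trans (mul_le_mul_of_nonneg_left h1 (by positivity))
    have h3 : (#B : ℝ) * (Real.log X / 4) ≤ (η / 2 * X) * (Real.log X / 4) := by
      refine h2.trans (le_of_eq ?_); ring
    exact le_of_mul_le_mul_right h3 (by positivity)
  have hsub : (Icc 1 X).filter (fun d : ℕ => d % 2 = 1 ∧
      (d : ℝ) ^ (1 - η / 1000) < ((Near (d : ℤ) (d : ℝ)).ncard : ℝ)) ⊆
      (Icc 1 ⌊η / 2 * (X : ℝ)⌋₊) ∪ B := by
    intro d hd
    obtain ⟨hdX, hd2, hdn⟩ := mem_filter.1 hd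
    obtain ⟨hd1, hdX⟩ := mem_Icc.1 hdX
    rw [mem_union, mem_Icc]
    by_contra hcon
    push Not at hcon
    obtain ⟨hc1, hc2⟩ := hcon
    have hdη : η / 2 * X < d := by
      have h1 := hc1 hd1
      exact (Nat.floor_lt (by positivity)).1 h1
    have hXd : (X : ℝ) ≤ 2 / η * d := by
      rw [div_mul_eq_mul_div, le_div_iff₀ hη]; linarith
    have hdx1 : x₁ ≤ d := by
      have h1 : x₁ * (2 / η) ≤ 2 / η * d := hXx1.trans hXd
      have h2 : 0 < 2 / η := by positivity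
      have h3 : 2 / η * x₁ ≤ 2 / η * d := by linarith
      exact le_of_mul_le_mul_left h3 h2
    obtain ⟨g1, g2, g3, g4⟩ := hx₁ d hdx1
    have hdr : (1 : ℝ) ≤ d := by exact_mod_cast hd1
    obtain ⟨n, hn1, hn2⟩ : ∃ n : ℕ, (16 : ℝ) ^ n ≤ d ∧ (d : ℝ) < 16 ^ (n + 1) :=
      exists_nat_pow_near hdr (by norm_num)
    have hn : 20 ≤ n := by
      by_contra hcon
      push Not at hcon
      have : (16 : ℝ) ^ (n + 1) ≤ 16 ^ 20 := pow_le_pow_right₀ (by norm_num) (by omega)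
      linarith
    have hdXr : (d : ℝ) ≤ X := by exact_mod_cast hdX
    have hLn : 2 * n ≤ N := by
      have h1 : (n : ℝ) ≤ Real.log X := by
        have h2 : Real.log ((16 : ℝ) ^ n) ≤ Real.log X :=
          Real.log_le_log (by positivity) (hn1.trans hdXr)
        rw [Real.log_pow] at h2
        have h3 : (1 : ℝ) ≤ Real.log 16 := by
          rw [Real.le_log_iff_exp_le (by norm_num)]
          exact (Real.exp_one_lt_d9.le).trans (by norm_num)
        have h4 : (0 : ℝ) ≤ n := Nat.cast_nonneg n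
        nlinarith
      have h2 : (2 * n : ℝ) ≤ N := by linarith
      exact_mod_cast h2
    have hno : ¬ ∃ (x : ℤ) (k : ℕ), 1 ≤ k ∧ k ≤ N ∧ (T (d : ℤ))^[k] x ≡ x [ZMOD (d : ℤ)] ∧
        z * (Int.gcd x d : ℝ) ≤ d := by
      rintro ⟨x, k, h1, h2, h3, h4⟩
      exact hc2 (mem_filter.2 ⟨mem_Icc.2 ⟨hd1, hdX⟩, hd2, x, k, h1, h2, h3, h4⟩)
    have hmain := near_le hd2 hn hn1 hn2 hLn hz1 hno
    -- the three terms
    have t1 : 6 * z ^ 2 ≤ 1 / 3 * (d : ℝ) ^ (1 - η / 1000) := by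
      refine le_trans ?_ g3
      have e1 : z ^ 2 = (X : ℝ) ^ (1 / 2 : ℝ) := by
        rw [hz, ← Real.rpow_natCast, ← Real.rpow_mul hX0.le]; norm_num
      rw [e1]
      have h1 : (X : ℝ) ^ (1 / 2 : ℝ) ≤ (2 / η * d) ^ (1 / 2 : ℝ) :=
        Real.rpow_le_rpow hX0.le hXd (by norm_num)
      have h2 : (2 / η * (d : ℝ)) ^ (1 / 2 : ℝ) = (2 / η) ^ (1 / 2 : ℝ) * (d : ℝ) ^ (1 / 2 : ℝ) :=
        Real.mul_rpow (by positivity) (by positivity)
      have h3 : (2 / η) ^ (1 / 2 : ℝ) ≤ 2 / η := by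
        have h4 : 1 ≤ 2 / η := by rw [one_le_div hη]; linarith
        calc (2 / η) ^ (1 / 2 : ℝ) ≤ (2 / η) ^ (1 : ℝ) :=
              Real.rpow_le_rpow_of_exponent_le h4 (by norm_num)
          _ = 2 / η := Real.rpow_one _
      have h5 : 0 ≤ (d : ℝ) ^ (1 / 2 : ℝ) := by positivity
      nlinarith [mul_le_mul_of_nonneg_right h3 h5]
    have t3 : 8040 * (d : ℝ) / N ≤ 1 / 3 * (d : ℝ) ^ (1 - η / 1000) := by
      refine le_trans ?_ g1
      have hNpos : (0 : ℝ) < N := by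
        have : 0 < N := by omega
        exact_mod_cast this
      have h1 : (X : ℝ) ^ (η / 168) ≤ 2 * N := by
        have : (2 : ℝ) ≤ N := by exact_mod_cast hN3
        linarith
      have h2 : (d : ℝ) ^ (η / 168) ≤ 2 * N :=
        (Real.rpow_le_rpow (by positivity) hdXr (by positivity)).trans h1
      have e : (d : ℝ) = (d : ℝ) ^ (1 - η / 168) * (d : ℝ) ^ (η / 168) := by
        rw [← Real.rpow_add (by linarith)]
        ring_nf
        rw [Real.rpow_one]
      rw [div_le_iff₀ hNpos]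
      have h3 : 0 ≤ (d : ℝ) ^ (1 - η / 168) := by positivity
      have h4 : (d : ℝ) ≤ (d : ℝ) ^ (1 - η / 168) * (2 * N) := by
        nth_rewrite 1 [e]
        exact mul_le_mul_of_nonneg_left h2 h3
      have h5 : 1 ≤ 2 / η := by rw [one_le_div hη]; linarith
      have h6 : 0 ≤ (d : ℝ) ^ (1 - η / 168) * N := by positivity
      nlinarith [mul_le_mul_of_nonneg_right h5 h6]
    linarith
  have hfin := (card_le_card hsub).trans (card_union_le _ _)
  have h1 : (#(Icc 1 ⌊η / 2 * (X : ℝ)⌋₊) : ℝ) ≤ η / 2 * X := by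
    rw [Nat.card_Icc, Nat.add_sub_cancel]
    exact Nat.floor_le (by positivity)
  have h2 : (#((Icc 1 X).filter (fun d : ℕ => d % 2 = 1 ∧
      (d : ℝ) ^ (1 - η / 1000) < ((Near (d : ℤ) (d : ℝ)).ncard : ℝ))) : ℝ) ≤
      #(Icc 1 ⌊η / 2 * (X : ℝ)⌋₊) + #B := by exact_mod_cast hfin
  linarith

end Pool.Agent.H33.NC
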